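import Pool.Agent.L5helper29.SE.Main2

/-!
# Tate classes on products of powers of superelliptic curves: the main theorem
-/

set_option autoImplicit false
set_option linter.all false

namespace Pool.Agent.L5helper29.SE

open Polynomial Finset
open Pool.Agent.H435R3.Weil
open Pool.Agent.L5helper29.AS (FixMu Gp detC detC_eig blk gens mono)

/-- automorphisms fixing the `ℓ`-th roots of unity permute the eigenvalues -/
theorem frobM_map {F : Type} [Field F] [Fintype F] {ℓ : ℕ} (hℓ : ℓ ≠ 0) {χ : MulChar F ℂ}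
    (hχ : χ ^ ℓ = 1) {f : F[X]} {A : Multiset ℂ} (hA : IsFrobM χ f A) (σ : ℂ ≃+* ℂ)
    (hσ : FixMu ℓ σ) : A.map σ = A := by
  have h1 : IsFrobM χ f (A.map σ) := by
    constructor
    · intro h
      rw [Multiset.mem_map] at h
      obtain ⟨a, ha, h⟩ := h
      have : a = 0 := by
        apply σ.injective
        rw [h, map_zero]
      exact hA.1 (this ▸ ha)
    · intro E _ _ _
      have h2 := congrArg σ (hA.2 E)
      rw [map_sum, map_neg, map_multiset_sum, Multiset.map_map] at h2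
      rw [Multiset.map_map]
      have h3 : ∀ x : E, σ (χ (Algebra.norm F (aeval x f))) = χ (Algebra.norm F (aeval x f)) := by
        intro x
        by_cases h0 : Algebra.norm F (aeval x f) = 0
        · rw [h0, MulChar.map_zero, map_zero]
        · apply hσ
          rw [← MulChar.pow_apply' χ hℓ, hχ, MulChar.one_apply (isUnit_iff_ne_zero.2 h0)]
      rw [sum_congr rfl fun x _ => h3 x] at h2
      rw [h2]
      congr 3
      funext x
      simp
  exact frobM_unique h1 hA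

section

variable {F : Type} [Field F] [Fintype F] {J : Type} [Fintype J] [DecidableEq J] {p ℓ d : ℕ}
    [Fact p.Prime] [CharP F p] [Fact ℓ.Prime] {χ : MulChar F ℂ}
    {f : J → F[X]} {c : J → ℕ} {A : J → Multiset ℂ}

lemma prod_toFinset {S : Multiset ℂ} (h : S.Nodup) : ∏ x ∈ S.toFinset, x = S.prod := by
  rw [Finset.prod_multiset_count]
  refine prod_congr rfl fun x hx => ?_
  rw [Multiset.count_eq_one_of_mem h (Multiset.mem_toFinset.1 hx), pow_one]

lemma prod_div (q : ℂ) (S : Multiset ℂ) :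
    (S.map (fun α => q / α)).prod = q ^ S.card / S.prod := by
  induction S using Multiset.induction_on with
  | empty => simp
  | cons b B ih =>
    rw [Multiset.map_cons, Multiset.prod_cons, ih, Multiset.card_cons, Multiset.prod_cons,
      pow_succ', div_mul_div_comm]

variable (hχ : χ ^ ℓ = 1) (hχ1 : χ ≠ 1) (hc : ∀ j, ¬ ℓ ∣ c j) (hd : 4 ≤ d) (hdℓ : ¬ ℓ ∣ d)
    (hsq : ∀ j, Squarefree (f j)) (hdeg : ∀ j, (f j).natDegree = d)
    (hA : ∀ j, IsFrobM (χ ^ c j) (f j) (A j)) (hnd : ∀ j, (A j).Nodup)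

include hχ hχ1 hc hd hdℓ hsq hdeg hA in
lemma main_data : ∀ j, (A j).card = d - 1 ∧ ∀ α ∈ A j, ‖α‖ = Real.sqrt (Fintype.card F) := by
  intro j
  have hℓ : ℓ.Prime := Fact.out
  have hcd : ¬ ℓ ∣ c j * d := by
    intro h
    rcases hℓ.dvd_mul.1 h with h | h
    · exact hc j h
    · exact hdℓ h
  exact frobM_main (by omega) (pow_ne hℓ hχ hχ1 (hc j))
    (by rw [← pow_mul]; exact pow_ne hℓ hχ hχ1 hcd) (hsq j) (hdeg j) (hA j)

/-- the product of the eigenvalues of a signed block -/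
noncomputable def PS (F : Type) [Fintype F] (A : J → Multiset ℂ) (d : ℕ) (j : J) (ε : Bool) : ℂ :=
  if ε = true then (A j).prod else (Fintype.card F : ℂ) ^ (d - 1) / (A j).prod

include hχ hχ1 hc hd hdℓ hsq hdeg hA in
/-- the powers of the products of the blocks -/
theorem pow_blocks : ∃ M : ℕ, 0 < M ∧
    (∀ i ε j ε', Al ℓ p c i ε j ε' →
      (PS F A d i ε * PS F A d j ε') ^ M = (Fintype.card F : ℂ) ^ ((d - 1) * M)) ∧
    ((∃ k : ℕ, (p : ZMod ℓ) ^ k = -1) →
      ∀ i ε, PS F A d i ε ^ (2 * M) = (Fintype.card F : ℂ) ^ ((d - 1) * M)) := by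
  obtain ⟨M, f₀, hM, hf₀, hpf, g1, g2, g3⟩ := exists_gamma (p := p) hχ hχ1 f c hc (d := d)
    (by omega) hdℓ hsq hdeg A hA
  have hq : (Fintype.card F : ℂ) ≠ 0 := by exact_mod_cast Fintype.card_ne_zero
  have hD0 : ∀ j, (A j).prod ≠ 0 := by
    intro j h
    rw [Multiset.prod_eq_zero_iff] at h
    exact (hA j).1 h
  refine ⟨M, hM, ?_, ?_⟩
  · intro i ε j ε' h
    exact (pair_pow (D := fun j => (A j).prod) (q := Fintype.card F) (M := M) (n := d - 1) hq hD0
      g2 g3 h).2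
  · rintro ⟨k, hk⟩ i ε
    have h1 := g3 i i k (by rw [hk]; ring)
    rw [← pow_add, ← two_mul] at h1
    unfold PS
    split_ifs
    · rw [h1, mul_comm]
    · rw [div_pow, h1, div_eq_iff (pow_ne_zero _ hq), ← pow_mul, ← pow_add]
      congr 1
      ring

include hχ hχ1 hc hd hdℓ hsq hdeg hA hnd in
/-- **The main theorem.** -/
theorem tate_mainM
    (hlarge : ∀ j, (∀ x ∈ A j, ∀ y ∈ A j, ∀ x' ∈ A j, ∀ y' ∈ A j, x ≠ y → x' ≠ y' →
      ∃ σ : ℂ ≃+* ℂ, FixMu ℓ σ ∧ σ x = x' ∧ σ y = y') ∨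
    ((A j).card.Prime ∧ ∀ x ∈ A j, ∀ y ∈ A j, ∃ σ : ℂ ≃+* ℂ, FixMu ℓ σ ∧ σ x = y))
    (hdg : ∀ j, ∃ x ∈ A j, ∃ y ∈ A j, ∀ N : ℕ, 0 < N → x ^ N ≠ y ^ N)
    (hind : ∀ j, ∃ σ : ℂ ≃+* ℂ, FixMu ℓ σ ∧ (∀ i, i ≠ j → ∀ x ∈ A i, σ x = x) ∧
      ∃ x ∈ A j, σ x ≠ x)
    {V : Type*} [AddCommGroup V] [Module ℂ V] (Φ : V →ₗ[ℂ] V)
    (hspan : Submodule.span ℂ {v : V | ∃ j, ∃ α ∈ A j, Φ v = α • v ∨
      Φ v = ((Fintype.card F : ℂ) / α) • v} = ⊤)
    (m s : ℕ) (hs : 1 ≤ s) (x : ExteriorAlgebra ℂ V) (hx : x ∈ ⋀[ℂ]^(2 * m) V)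
    (hFx : ExteriorAlgebra.map (Φ ^ s) x = ((Fintype.card F : ℂ) ^ m) ^ s • x) :
    ((∃ k : ℕ, (p : ZMod ℓ) ^ k = -1) ∧
      x ∈ Algebra.adjoin ℂ (gens Φ (Fintype.card F : ℂ) (fun j => (A j).toFinset))) ∨
    x ∈ Algebra.adjoin ℂ (gens2 Φ (Fintype.card F : ℂ) (fun j => (A j).toFinset) (Al ℓ p c)) := by
  classical
  have hℓ : ℓ.Prime := Fact.out
  have hq : 1 < Fintype.card F := Fintype.one_lt_card
  have hqC : (Fintype.card F : ℂ) ≠ 0 := by exact_mod_cast Fintype.card_ne_zero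
  have hmain := main_data hχ hχ1 hc hd hdℓ hsq hdeg hA
  have hmem : ∀ j (x : ℂ), x ∈ (A j).toFinset ↔ x ∈ A j := fun j x => Multiset.mem_toFinset
  set B : J → Finset ℂ := fun j => (A j).toFinset with hB
  have hcard : ∀ j, (B j).card = d - 1 := by
    intro j
    rw [hB]
    simp only
    rw [Multiset.toFinset_card_of_nodup (hnd j), (hmain j).1]
  have h3 : ∀ j, 3 ≤ (B j).card := by
    intro j
    rw [hcard]
    omega
  have hnorm : ∀ j, ∀ x ∈ B j, ‖x‖ = Real.sqrt (Fintype.card F) := by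
    intro j x hx
    exact (hmain j).2 x ((hmem j x).1 hx)
  have rel := rel_main2 B (Gp ℓ) hq (by
      intro σ hσ j x hx
      rw [hB, hmem] at hx ⊢
      have h1 := frobM_map hℓ.ne_zero (χ := χ ^ c j)
        (by rw [← pow_mul, mul_comm, pow_mul, hχ, one_pow]) (hA j) σ hσ
      rw [← h1]
      exact Multiset.mem_map_of_mem _ hx) hnorm (by
      intro j
      rcases hlarge j with h | ⟨h1, h2⟩
      · left
        intro x hx y hy x' hx' y' hy' hxy hxy'
        rw [hB, hmem] at hx hy hx' hy'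
        obtain ⟨σ, e1, e2, e3⟩ := h x hx y hy x' hx' y' hy' hxy hxy'
        exact ⟨σ, e1, e2, e3⟩
      · right
        refine ⟨by rw [hcard, ← (hmain j).1]; exact h1, ?_⟩
        intro x hx y hy
        rw [hB, hmem] at hx hy
        obtain ⟨σ, e1, e2⟩ := h2 x hx y hy
        exact ⟨σ, e1, e2⟩) (by
      intro j
      obtain ⟨x, hx, y, hy, h⟩ := hdg j
      exact ⟨x, (hmem j x).2 hx, y, (hmem j y).2 hy, h⟩) (by
      intro j
      obtain ⟨σ, h1, h2, x, hx, h3⟩ := hind j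
      refine ⟨σ, h1, ?_, x, (hmem j x).2 hx, h3⟩
      intro i hi y hy
      rw [hB, hmem] at hy
      exact h2 i hi y hy)
  have hspan' : Submodule.span ℂ {v : V | ∃ μ : ℂ, (∃ j, μ ∈ B j ∨
      (Fintype.card F : ℂ) / μ ∈ B j) ∧ Φ v = μ • v} = ⊤ := by
    rw [← hspan]
    congr 1
    ext v
    constructor
    · rintro ⟨μ, ⟨j, hj | hj⟩, hv⟩
      · rw [hB, hmem] at hj
        exact ⟨j, μ, hj, Or.inl hv⟩
      · rw [hB, hmem] at hj
        refine ⟨j, _, hj, Or.inr ?_⟩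
        have hμ : μ ≠ 0 := by
          rintro rfl
          rw [div_zero] at hj
          exact (hA j).1 hj
        rw [hv]
        congr 1
        field_simp
    · rintro ⟨j, α, hα, hv | hv⟩
      · exact ⟨α, ⟨j, Or.inl ((hmem j α).2 hα)⟩, hv⟩
      · refine ⟨_, ⟨j, Or.inr ?_⟩, hv⟩
        rw [hB, hmem]
        have hα0 : α ≠ 0 := fun h => (hA j).1 (h ▸ hα)
        have : (Fintype.card F : ℂ) / ((Fintype.card F : ℂ) / α) = α := by field_simp
        rw [this]
        exact hα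
  by_cases hneg : ∃ k : ℕ, (p : ZMod ℓ) ^ k = -1
  · left
    refine ⟨hneg, ?_⟩
    exact tate_combA B Φ hq h3 hnorm (fun m N hN k h => rel m N hN k h) hspan' m s hs x hx hFx
  · right
    push Not at hneg
    obtain ⟨M, f₀, hM, hf₀, hpf, g1, g2, g3⟩ := exists_gamma (p := p) hχ hχ1 f c hc (d := d)
      (by omega) hdℓ hsq hdeg A hA
    have hD0 : ∀ j, (A j).prod ≠ 0 := by
      intro j h
      rw [Multiset.prod_eq_zero_iff] at h
      exact (hA j).1 h
    have hBD : ∀ j, ∏ x ∈ B j, x = (A j).prod := fun j => prod_toFinset (hnd j)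
    refine tate_combB B Φ hq h3 hnorm (fun m N hN k h => rel m N hN k h) (Al ℓ p c) ?_ hspan' m s
      hs x hx hFx
    intro t ht h0
    unfold RelD at ht ⊢
    simp only [hBD] at ht ⊢
    obtain ⟨N, hN, k, hk⟩ := ht
    obtain ⟨i, ε, j, ε', hij, hal, e1, e2⟩ := exists_pair hf₀ hneg c hc t (g1 t N hN k hk) h0
    refine ⟨i, ε, j, ε', hij, hal, e1, e2, ?_⟩
    exact rel_sub (D := fun j => (A j).prod) hqC hD0 hM ⟨N, hN, k, hk⟩
      (pair_pow (D := fun j => (A j).prod) (q := Fintype.card F) (M := M) (n := d - 1) hqC hD0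
        g2 g3 hal).1

end

end Pool.Agent.L5helper29.SE
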