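import Pool.Agent.W271.HB.AY
import Pool.Agent.R847.Gap.Emb

/-!
# The standard additive character
-/

set_option autoImplicit false
set_option linter.all false

namespace Pool.Agent.L5helper29.SE

/-- a primitive additive character invariant under the Frobenius -/
theorem exists_std (p : ℕ) [Fact p.Prime] (F : Type) [Field F] [Fintype F] [CharP F p] :
    ∃ ψ : AddChar F ℂ, ψ.IsPrimitive ∧ ∀ y, ψ (y ^ p) = ψ y := by
  obtain ⟨ν⟩ := Pool.Agent.R847.Gap.exists_iso p
  obtain ⟨⟨ψ, hψ⟩, h⟩ := Pool.Agent.W271.HB.AY.main p F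
  obtain ⟨h1, h2⟩ := h ψ hψ
  refine ⟨(ν.symm : PadicAlgCl p →* ℂ).compAddChar ψ, ?_, ?_⟩
  · exact AddChar.IsPrimitive.compMulHom_of_isPrimitive h1 ν.symm.injective
  · intro y
    have := congrArg ν.symm (h2 y)
    exact this

end Pool.Agent.L5helper29.SE
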