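import Pool.Agent.L5helper29.SE.LP
import Pool.Agent.L5helper29.SE.Psi

/-!
# Base change, and the product of the eigenvalues
-/

set_option autoImplicit false
set_option linter.all false

namespace Pool.Agent.L5helper29.SE

open Polynomial Finset
open Pool.Agent.H341R2.Sharp Pool.Agent.H435R3.Weil Pool.Agent.H498R2.Kl
open Pool.Agent.L5helper29.AS (PA PA_coeff_zero PA_top PA_roots HID_PA HID_unique HID_S)

/-- numbers of absolute value at most `r` whose product has the maximal absolute value -/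
lemma norm_eq_of_prod {r : ℝ} (hr : 0 < r) {A : Multiset ℂ} (hle : ∀ α ∈ A, ‖α‖ ≤ r)
    (hprod : ‖A.prod‖ = r ^ A.card) : ∀ α ∈ A, ‖α‖ = r := by
  have hnorm : (A.map (fun α => ‖α‖)).prod = r ^ A.card := by
    rw [← hprod]
    exact (Multiset.prod_hom A (normHom : ℂ →*₀ ℝ))
  intro α hα
  by_contra hne
  have hlt : ‖α‖ < r := lt_of_le_of_ne (hle α hα) hne
  obtain ⟨B, hB⟩ := Multiset.exists_cons_of_mem hα
  have h1 : (B.map (fun α => ‖α‖)).prod ≤ r ^ B.card := by
    have : ∀ C : Multiset ℂ, (∀ α ∈ C, ‖α‖ ≤ r) → (C.map (fun α => ‖α‖)).prod ≤ r ^ C.card := by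
      intro C
      induction C using Multiset.induction_on with
      | empty => intro _; simp
      | cons c C ih =>
        intro hC
        rw [Multiset.map_cons, Multiset.prod_cons, Multiset.card_cons, pow_succ']
        exact mul_le_mul (hC c (Multiset.mem_cons_self c C))
          (ih fun α hα => hC α (Multiset.mem_cons_of_mem hα))
          (Multiset.prod_nonneg (by
            intro x hx
            rw [Multiset.mem_map] at hx
            obtain ⟨y, _, rfl⟩ := hx
            exact norm_nonneg y)) hr.le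
    apply this
    intro β hβ
    apply hle
    rw [hB]
    exact Multiset.mem_cons_of_mem hβ
  rw [hB, Multiset.map_cons, Multiset.prod_cons, Multiset.card_cons, pow_succ'] at hnorm
  have h2 : ‖α‖ * (B.map (fun α => ‖α‖)).prod < r * r ^ B.card := by
    refine lt_of_le_of_lt (mul_le_mul_of_nonneg_left h1 (norm_nonneg α)) ?_
    exact mul_lt_mul_of_pos_right hlt (by positivity)
  exact h2.ne hnorm

section split

variable {F : Type} [Field F] [Fintype F] [DecidableEq F]

lemma DD_deriv {d : ℕ} {r : Fin d → F} (i : Fin d) :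
    (derivative (∏ j, (X - C (r j)))).eval (r i) = DD r i := by
  have h1 := Lagrange.eval_nodal_derivative_eval_node_eq (s := (univ : Finset (Fin d))) (v := r)
    (mem_univ i)
  rw [Lagrange.eval_nodal] at h1
  exact h1

/-- the eigenvalues for a product of different linear factors -/
theorem frobM_split {χ : MulChar F ℂ} {d : ℕ} (hd : 1 ≤ d) (hχ : χ ≠ 1) (hχd : χ ^ d ≠ 1)
    {r : Fin d → F} (hr : Function.Injective r) {A : Multiset ℂ}
    (hA : IsFrobM χ (∏ i, (X - C (r i))) A) :
    A.card = d - 1 ∧ (∀ α ∈ A, ‖α‖ = Real.sqrt (Fintype.card F)) ∧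
      ∀ ψ : AddChar F ℂ, A.prod * gaussSum (χ ^ d) ψ =
        (-1) ^ (d - 1) * χ (∏ i, DD r i) * gaussSum χ ψ ^ d := by
  set P : F[X] := ∏ i, (X - C (r i)) with hPdef
  have hP : P.Monic := monic_prod_of_monic _ _ fun i _ => monic_X_sub_C _
  have hPd : P.natDegree = d := by
    rw [hPdef, natDegree_prod_of_monic _ _ fun i _ => monic_X_sub_C _]
    simp
  have hsq : Squarefree P := by
    have h1 : P.Separable := by
      rw [hPdef, separable_prod_X_sub_C_iff]
      exact hr
    exact h1.squarefree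
  have hdeg : 1 ≤ P.natDegree := by omega
  obtain ⟨h0, hPA⟩ := (frobM_iff hχ hP hsq hdeg A).1 hA
  have hDD : (∏ i, DD r i) ≠ 0 := prod_ne_zero_iff.2 fun i _ => DD_ne hr i
  have hχD : χ (∏ i, DD r i) ≠ 0 := ((isUnit_iff_ne_zero.2 hDD).map χ).ne_zero
  have htop : (LPm χ P).coeff (d - 1) = χ (∏ i, DD r i) * jac χ d 1 := by
    rw [LPm_coeff hχ hP hsq hdeg]
    exact sum_top χ r hr hd
  obtain ⟨ψ₀, hψ₀⟩ : ∃ ψ₀ : AddChar F ℂ, ψ₀.IsPrimitive := by
    obtain ⟨p, hp⟩ := CharP.exists F
    haveI : Fact (Nat.Prime p) := ⟨CharP.char_is_prime F p⟩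
    obtain ⟨ψ, hψ, _⟩ := exists_std p F
    exact ⟨ψ, hψ⟩
  have hjac := jac_gauss χ ψ₀ d hχd
  have hg1 : gaussSum χ ψ₀ ≠ 0 := gauss_ne_zero hψ₀ hχ
  have hg2 : gaussSum (χ ^ d) ψ₀ ≠ 0 := gauss_ne_zero hψ₀ hχd
  have hj0 : jac χ d 1 ≠ 0 := by
    intro h
    rw [h, zero_mul] at hjac
    exact pow_ne_zero _ hg1 hjac.symm
  have hjn : ‖jac χ d 1‖ = Real.sqrt (Fintype.card F) ^ (d - 1) := by
    have h1 := congrArg norm hjac
    rw [norm_mul, norm_pow, gauss_norm hψ₀ hχ, gauss_norm hψ₀ hχd] at h1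
    have h2 : 0 < Real.sqrt (Fintype.card F) := Real.sqrt_pos.2 (by exact_mod_cast Fintype.card_pos)
    obtain ⟨k, rfl⟩ : ∃ k, d = k + 1 := ⟨d - 1, by omega⟩
    rw [pow_succ] at h1
    exact mul_right_cancel₀ h2.ne' h1
  obtain ⟨ht1, ht2⟩ := PA_top A
  rw [hPA] at ht1 ht2
  have hprod0 : A.prod ≠ 0 := by
    rw [Ne, Multiset.prod_eq_zero_iff]
    exact h0
  have hcard : A.card = d - 1 := by
    apply le_antisymm
    · by_contra hlt
      push Not at hlt
      have h1 := LPm_coeff hχ hP hsq hdeg A.card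
      rw [AL_van hχ hP hsq hdeg A.card (by omega), ht2] at h1
      exact mul_ne_zero (pow_ne_zero _ (by norm_num)) hprod0 h1
    · by_contra hlt
      push Not at hlt
      rw [coeff_eq_zero_of_natDegree_lt (lt_of_le_of_lt ht1 hlt)] at htop
      exact mul_ne_zero hχD hj0 htop.symm
  have hprod : (-1) ^ (d - 1) * A.prod = χ (∏ i, DD r i) * jac χ d 1 := by
    rw [← htop, ← hcard, ht2]
  refine ⟨hcard, ?_, ?_⟩
  · have hr0 : 0 < Real.sqrt (Fintype.card F) :=
      Real.sqrt_pos.2 (by exact_mod_cast Fintype.card_pos)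
    apply norm_eq_of_prod hr0
    · intro α hα
      have hα0 : α ≠ 0 := fun h => h0 (h ▸ hα)
      have h1 : (LPm χ P).eval α⁻¹ = 0 := by
        have h2 : α⁻¹ ∈ (PA A).roots := by
          rw [PA_roots h0]
          exact Multiset.mem_map_of_mem _ hα
        rw [hPA] at h2
        exact (mem_roots'.1 h2).2
      have h3 := LPm_root hχ hP hsq hdeg _ h1
      rw [norm_inv] at h3
      have h4 : 0 < ‖α‖ := norm_pos_iff.2 hα0
      have h5 : 1 * ‖α‖ ≤ Real.sqrt (Fintype.card F) * ‖α‖⁻¹ * ‖α‖ :=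
        mul_le_mul_of_nonneg_right h3 h4.le
      rwa [one_mul, mul_assoc, inv_mul_cancel₀ h4.ne', mul_one] at h5
    · have h1 := congrArg norm hprod
      rw [norm_mul, norm_pow, norm_neg, norm_one, one_pow, one_mul, norm_mul, hjn] at h1
      have h2 : ‖χ (∏ i, DD r i)‖ = 1 := by
        have h3 : χ (∏ i, DD r i) ^ (Fintype.card F - 1) = 1 := by
          rw [← map_pow, FiniteField.pow_card_sub_one_eq_one _ hDD, map_one]
        exact Complex.norm_eq_one_of_pow_eq_one h3 (by have := card_two hχ; omega)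
      rw [h1, h2, one_mul, hcard]
  · intro ψ
    have h1 := jac_gauss χ ψ d hχd
    have h2 : A.prod = (-1) ^ (d - 1) * (χ (∏ i, DD r i) * jac χ d 1) := by
      rw [← hprod, ← mul_assoc, ← mul_pow]
      norm_num
    rw [h2, ← h1]
    ring

end split

section base

variable {F : Type} [Field F] [Fintype F]

/-- base change -/
theorem frobM_base {χ : MulChar F ℂ} {f : F[X]} {A : Multiset ℂ} (hA : IsFrobM χ f A) (E : Type)
    [Field E] [Fintype E] [Algebra F E] [FiniteDimensional F E] :
    IsFrobM (normChar F E χ) (f.map (algebraMap F E)) (A.map (fun α => α ^ Module.finrank F E)) := by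
  constructor
  · intro h
    rw [Multiset.mem_map] at h
    obtain ⟨α, hα, h⟩ := h
    have := eq_zero_of_pow_eq_zero h
    exact hA.1 (this ▸ hα)
  · intro K _ _ _
    letI : Algebra F K := ((algebraMap E K).comp (algebraMap F E)).toAlgebra
    haveI : IsScalarTower F E K := IsScalarTower.of_algebraMap_eq (fun x => rfl)
    haveI : Module.Finite E K := Module.Finite.of_finite
    have h1 := hA.2 K
    have h2 : ∀ x : K, normChar F E χ (Algebra.norm E (aeval x (f.map (algebraMap F E)))) =
        χ (Algebra.norm F (aeval x f)) := by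
      intro x
      rw [normChar_apply, Algebra.norm_norm, aeval_map_algebraMap]
    rw [sum_congr rfl fun x _ => h2 x, h1, Multiset.map_map]
    congr 3
    funext α
    simp only [Function.comp]
    rw [← pow_mul, Module.finrank_mul_finrank]

lemma normChar_pow' (E : Type) [Field E] [Fintype E] [Algebra F E] [FiniteDimensional F E]
    (χ : MulChar F ℂ) (k : ℕ) : normChar F E χ ^ k = normChar F E (χ ^ k) := by
  ext u
  rw [MulChar.pow_apply_coe, normChar_apply, normChar_apply]
  have h1 : Algebra.norm F (u : E) ≠ 0 := (Algebra.norm_ne_zero_iff).2 u.ne_zero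
  exact (MulChar.pow_apply_coe χ k (Units.mk0 _ h1)).symm

end base

section split2

variable {F : Type} [Field F] [Fintype F] [DecidableEq F]

lemma exists_split {f : F[X]} {d : ℕ} (hsq : Squarefree f) (hs : f.Splits) (hf : f.natDegree = d) :
    ∃ r : Fin d → F, Function.Injective r ∧
      f = C f.leadingCoeff * ∏ i, (X - C (r i)) ∧
      ∀ g : F → F, (f.roots.map g).prod = ∏ i, g (r i) := by
  have hnd : f.roots.Nodup := nodup_roots (PerfectField.separable_iff_squarefree.2 hsq)
  have hcard : f.roots.toFinset.card = d := by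
    rw [Multiset.toFinset_card_of_nodup hnd, ← hf]
    exact (splits_iff_card_roots.1 hs)
  have e : Fin d ≃ f.roots.toFinset := (finCongr hcard.symm).trans
    f.roots.toFinset.equivFin.symm
  have key : ∀ (M : Type) [CommMonoid M] (g : F → M), (f.roots.map g).prod = ∏ i, g (e i) := by
    intro M _ g
    have h1 : (f.roots.map g).prod = ∏ x ∈ f.roots.toFinset, g x := by
      rw [Finset.prod, Multiset.toFinset_val, Multiset.dedup_eq_self.2 hnd]
    rw [h1, ← prod_coe_sort, ← e.prod_comp]
  refine ⟨fun i => e i, ?_, ?_, fun g => key F g⟩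
  · intro i j hij
    exact e.injective (Subtype.ext hij)
  · have h1 := hs.eq_prod_roots
    rw [key F[X] (fun a => X - C a)] at h1
    exact h1

/-- the eigenvalues for split polynomials -/
theorem frobM_split2 {χ : MulChar F ℂ} {f : F[X]} {d : ℕ} (hd : 1 ≤ d) (hχ : χ ≠ 1)
    (hχd : χ ^ d ≠ 1) (hsq : Squarefree f) (hs : f.Splits) (hf : f.natDegree = d)
    {A : Multiset ℂ} (hA : IsFrobM χ f A) :
    A.card = d - 1 ∧ (∀ α ∈ A, ‖α‖ = Real.sqrt (Fintype.card F)) ∧
      ∀ ψ : AddChar F ℂ, A.prod * gaussSum (χ ^ d) ψ =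
        (-1) ^ (d - 1) * χ ((f.roots.map (fun z => (derivative f).eval z)).prod / f.leadingCoeff) *
          gaussSum χ ψ ^ d := by
  have hf0 : f ≠ 0 := by
    rintro rfl
    simp at hf
    omega
  have ha : f.leadingCoeff ≠ 0 := leadingCoeff_ne_zero.2 hf0
  obtain ⟨r, hr, hfr, hrg⟩ := exists_split hsq hs hf
  set a := f.leadingCoeff with hadef
  have hDr : (f.roots.map (fun z => (derivative f).eval z)).prod / a =
      a ^ (d - 1) * ∏ i, DD r i := by
    rw [hrg]
    have h1 : ∀ i, (derivative f).eval (r i) = a * DD r i := by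
      intro i
      rw [hfr, derivative_C_mul, eval_C_mul, DD_deriv]
    rw [prod_congr rfl fun i _ => h1 i, prod_mul_distrib, prod_const, card_univ, Fintype.card_fin]
    obtain ⟨k, rfl⟩ : ∃ k, d = k + 1 := ⟨d - 1, by omega⟩
    rw [Nat.add_sub_cancel, pow_succ]
    field_simp
  rw [hDr]
  clear hDr hrg
  have h1 := frobM_scale hA a⁻¹ (inv_ne_zero ha)
  have h2 : C a⁻¹ * f = ∏ i, (X - C (r i)) := by
    conv_lhs => rw [hfr]
    rw [← mul_assoc, ← C_mul, inv_mul_cancel₀ ha, C_1, one_mul]
  rw [h2] at h1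
  obtain ⟨e1, e2, e3⟩ := frobM_split hd hχ hχd hr h1
  have hχa : χ a ≠ 0 := ((isUnit_iff_ne_zero.2 ha).map χ).ne_zero
  have hχa' : χ a⁻¹ * χ a = 1 := by
    rw [← map_mul, inv_mul_cancel₀ ha, map_one]
  have hχn : ‖χ a‖ = 1 := by
    have h3 : χ a ^ (Fintype.card F - 1) = 1 := by
      rw [← map_pow, FiniteField.pow_card_sub_one_eq_one _ ha, map_one]
    exact Complex.norm_eq_one_of_pow_eq_one h3 (by have := card_two hχ; omega)
  have hχn' : ‖χ a⁻¹‖ = 1 := by
    have h3 := congrArg norm hχa'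
    rwa [norm_mul, hχn, mul_one, norm_one] at h3
  rw [Multiset.card_map] at e1
  refine ⟨e1, ?_, ?_⟩
  · intro α hα
    have := e2 _ (Multiset.mem_map_of_mem _ hα)
    rwa [norm_mul, hχn', one_mul] at this
  · intro ψ
    have h3 := e3 ψ
    rw [Multiset.prod_map_mul, Multiset.map_const', Multiset.prod_replicate, e1,
      Multiset.map_id'] at h3
    rw [map_mul, map_pow]
    have h4 : (χ a⁻¹ * χ a) ^ (d - 1) = 1 := by rw [hχa', one_pow]
    rw [mul_pow] at h4
    linear_combination (χ a) ^ (d - 1) * h3 -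
      (A.prod * gaussSum (χ ^ d) ψ) * h4

end split2

section general

variable {F : Type} [Field F] [Fintype F]

/-- an extension in which a polynomial splits -/
lemma exists_split_ext (g : F[X]) : ∃ (E : Type) (_ : Field E) (_ : Fintype E)
    (_ : Algebra F E) (_ : FiniteDimensional F E), (g.map (algebraMap F E)).Splits := by
  haveI : Module.Finite F g.SplittingField := inferInstance
  haveI : Finite g.SplittingField := Module.finite_of_finite F
  letI : Fintype g.SplittingField := Fintype.ofFinite _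
  exact ⟨g.SplittingField, inferInstance, inferInstance, inferInstance, inferInstance,
    SplittingField.splits g⟩

lemma sq_map {f : F[X]} (hsq : Squarefree f) (E : Type) [Field E] [Algebra F E] :
    Squarefree (f.map (algebraMap F E)) :=
  ((PerfectField.separable_iff_squarefree.2 hsq).map).squarefree

/-- **The eigenvalues**: number and absolute values. -/
theorem frobM_main {χ : MulChar F ℂ} {f : F[X]} {d : ℕ} (hd : 1 ≤ d) (hχ : χ ≠ 1)
    (hχd : χ ^ d ≠ 1) (hsq : Squarefree f) (hf : f.natDegree = d) {A : Multiset ℂ}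
    (hA : IsFrobM χ f A) :
    A.card = d - 1 ∧ (∀ α ∈ A, ‖α‖ = Real.sqrt (Fintype.card F)) := by
  classical
  obtain ⟨E, i1, i2, i3, i4, hsp⟩ := exists_split_ext f
  have h1 := frobM_base hA E
  obtain ⟨e1, e2, -⟩ := frobM_split2 hd (normChar_ne_one F E χ hχ)
    (by rw [normChar_pow']; exact normChar_ne_one F E _ hχd) (sq_map hsq E) hsp
    (by rw [natDegree_map]; exact hf) h1
  rw [Multiset.card_map] at e1
  refine ⟨e1, ?_⟩
  intro α hα
  have h2 := e2 _ (Multiset.mem_map_of_mem _ hα)
  have hm : 0 < Module.finrank F E := Module.finrank_pos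
  have h3 : Real.sqrt (Fintype.card E) = (Real.sqrt (Fintype.card F)) ^ Module.finrank F E := by
    rw [Module.card_eq_pow_finrank (K := F) (V := E)]
    push_cast
    rw [Real.sqrt_eq_iff_mul_self_eq (by positivity) (by positivity), ← mul_pow,
      Real.mul_self_sqrt (by positivity)]
  rw [h3, norm_pow] at h2
  exact (pow_left_inj₀ (norm_nonneg _) (Real.sqrt_nonneg _) hm.ne').1 h2

/-- the product of the eigenvalues and Gauss sums -/
theorem frobM_gamma {χ : MulChar F ℂ} {f : F[X]} {d ℓ : ℕ} (hd : 1 ≤ d) (hχ : χ ≠ 1)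
    (hχd : χ ^ d ≠ 1) (hℓ : χ ^ ℓ = 1) (hℓ0 : ℓ ≠ 0) (hsq : Squarefree f) (hf : f.natDegree = d)
    {A : Multiset ℂ}
    (hA : IsFrobM χ f A) (E : Type) [Field E] [Fintype E] [Algebra F E] [FiniteDimensional F E]
    (hsp : (f.map (algebraMap F E)).Splits) (ψ : AddChar E ℂ) :
    (A.prod ^ Module.finrank F E) ^ (2 * ℓ) *
      gaussSum (normChar F E χ ^ d) ψ ^ (2 * ℓ) = (gaussSum (normChar F E χ) ψ ^ d) ^ (2 * ℓ) := by
  classical
  have h1 := frobM_base hA E
  obtain ⟨e1, e2, e3⟩ := frobM_split2 hd (normChar_ne_one F E χ hχ)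
    (by rw [normChar_pow']; exact normChar_ne_one F E _ hχd) (sq_map hsq E) hsp
    (by rw [natDegree_map]; exact hf) h1
  have h2 := congrArg (fun z : ℂ => z ^ (2 * ℓ)) (e3 ψ)
  have h3 : (A.map (fun α => α ^ Module.finrank F E)).prod = A.prod ^ Module.finrank F E := by
    rw [Multiset.prod_map_pow, Multiset.map_id']
  rw [h3, mul_pow, mul_pow, mul_pow] at h2
  rw [h2]
  have h4 : ((-1 : ℂ) ^ (d - 1)) ^ (2 * ℓ) = 1 := by
    rw [← pow_mul, mul_comm (d - 1), mul_assoc, pow_mul, neg_one_sq, one_pow]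
  set g := f.map (algebraMap F E) with hg
  have hg0 : g.leadingCoeff ≠ 0 := by
    rw [Ne, leadingCoeff_eq_zero]
    intro h
    have : g.natDegree = d := by rw [hg, natDegree_map]; exact hf
    rw [h, natDegree_zero] at this
    omega
  have hz : (g.roots.map (fun z => (derivative g).eval z)).prod / g.leadingCoeff ≠ 0 := by
    refine div_ne_zero ?_ hg0
    rw [Ne, Multiset.prod_eq_zero_iff]
    intro h
    rw [Multiset.mem_map] at h
    obtain ⟨z, hz, h⟩ := h
    have hsep : g.Separable := PerfectField.separable_iff_squarefree.2 (sq_map hsq E)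
    have h5 := (mem_roots'.1 hz).2
    exact (hsep.eval₂_derivative_ne_zero (RingHom.id E) (by simpa [eval₂_id] using h5)) (by
      simpa [eval₂_id] using h)
  have h5 : normChar F E χ ((g.roots.map (fun z => (derivative g).eval z)).prod /
      g.leadingCoeff) ^ (2 * ℓ) = 1 := by
    rw [mul_comm 2 ℓ, pow_mul, ← MulChar.pow_apply' _ hℓ0, normChar_pow F E χ ℓ hℓ0 hℓ,
      MulChar.one_apply (isUnit_iff_ne_zero.2 hz), one_pow]
  rw [h4, h5, one_mul, one_mul]

end general

end Pool.Agent.L5helper29.SE
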