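import Pool.Agent.L5helper29.AS.ExtAlg

/-!
# Eigenclasses generated by degree two classes and products of two determinant monomials
-/

set_option autoImplicit false
set_option linter.all false

namespace Pool.Agent.L5helper29.SE

open Module
open Pool.Agent.H925R2 Pool.Agent.L5helper29.AS

section ext

variable {K V : Type*} [Field K] [AddCommGroup V] [Module K V]

open ExteriorAlgebra

variable [DecidableEq K] {J : Type*} [DecidableEq J] (F : V →ₗ[K] V) (q : K) (B : J → Finset K)

/-- the elements of a block, or the dual elements -/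
def Sgn (j : J) (ε : Bool) : Multiset K :=
  if ε = true then (B j).val else (B j).val.map (fun x => q / x)

/-- the sign -/
def sg (ε : Bool) : ℤ := if ε = true then 1 else -1

/-- the generators -/
def gens2 (Al : J → Bool → J → Bool → Prop) : Set (ExteriorAlgebra K V) :=
  deg2 F q ∪ {w | ∃ i ε j ε', Al i ε j ε' ∧ ∃ u ∈ detC F (Sgn q B i ε),
    ∃ v ∈ detC F (Sgn q B j ε'), w = u * v}

variable {q B}

lemma qq {q x : K} (hq : q ≠ 0) (hx : x ≠ 0) : q / (q / x) = x := by
  field_simp

lemma sgn_nodup (hq : q ≠ 0) (h0 : ∀ j, ∀ x ∈ B j, x ≠ 0) (j : J) (ε : Bool) :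
    (Sgn q B j ε).Nodup := by
  cases ε
  · simp only [Sgn, Bool.false_eq_true, if_false]
    refine (Multiset.nodup_map_iff_inj_on (B j).nodup).2 ?_
    intro x hx y hy hxy
    rw [← qq hq (h0 j x hx), hxy, qq hq (h0 j y hy)]
  · simp only [Sgn, if_true]
    exact (B j).nodup

lemma sgn_card (j : J) (ε : Bool) : (Sgn q B j ε).card = (B j).card := by
  cases ε <;> simp [Sgn]

lemma sgn_disj (hq : q ≠ 0) (h0 : ∀ j, ∀ x ∈ B j, x ≠ 0)
    (hD1 : ∀ i j, ∀ x, x ∈ B i → x ∈ B j → i = j)
    (hD2 : ∀ i j, ∀ x, x ∈ B i → q / x ∉ B j) {i j : J} (hij : i ≠ j) (ε ε' : Bool) (x : K)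
    (h1 : x ∈ Sgn q B i ε) (h2 : x ∈ Sgn q B j ε') : False := by
  cases ε <;> cases ε' <;> simp only [Sgn, Bool.false_eq_true, if_false, if_true] at h1 h2
  · rw [Multiset.mem_map] at h1 h2
    obtain ⟨y, hy, rfl⟩ := h1
    obtain ⟨z, hz, hzy⟩ := h2
    have : z = y := by rw [← qq hq (h0 j z hz), hzy, qq hq (h0 i y hy)]
    subst this
    exact hij (hD1 i j z hy hz)
  · rw [Multiset.mem_map] at h1
    obtain ⟨y, hy, rfl⟩ := h1
    exact hD2 i j y hy h2
  · rw [Multiset.mem_map] at h2
    obtain ⟨y, hy, rfl⟩ := h2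
    exact hD2 j i y hy h1
  · exact hij (hD1 i j x h1 h2)

lemma sgn_count (hq : q ≠ 0) (h0 : ∀ j, ∀ x ∈ B j, x ≠ 0)
    (hD1 : ∀ i j, ∀ x, x ∈ B i → x ∈ B j → i = j)
    (hD2 : ∀ i j, ∀ x, x ∈ B i → q / x ∉ B j) (j : J) (ε : Bool) (i : J) (x : K) (hx : x ∈ B i) :
    ((Sgn q B j ε).count x : ℤ) - ((Sgn q B j ε).count (q / x) : ℤ) =
      (Pi.single j (sg ε) : J → ℤ) i := by
  have hnd := sgn_nodup hq h0 j ε
  cases ε
  · simp only [sg, Bool.false_eq_true, if_false]
    have hc1 : (Sgn q B j false).count x = 0 := by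
      rw [Multiset.count_eq_zero]
      intro hmem
      simp only [Sgn, Bool.false_eq_true, if_false] at hmem
      rw [Multiset.mem_map] at hmem
      obtain ⟨y, hy, rfl⟩ := hmem
      exact hD2 j i y hy hx
    rw [hc1]
    by_cases hij : i = j
    · subst hij
      rw [Multiset.count_eq_one_of_mem hnd, Pi.single_eq_same]
      · simp
      · simp only [Sgn, Bool.false_eq_true, if_false]
        exact Multiset.mem_map_of_mem _ hx
    · have hc2 : (Sgn q B j false).count (q / x) = 0 := by
        rw [Multiset.count_eq_zero]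
        intro hmem
        simp only [Sgn, Bool.false_eq_true, if_false] at hmem
        rw [Multiset.mem_map] at hmem
        obtain ⟨y, hy, hxy⟩ := hmem
        have : y = x := by rw [← qq hq (h0 j y hy), hxy, qq hq (h0 i x hx)]
        subst this
        exact hij (hD1 i j y hx hy)
      rw [hc2, Pi.single_eq_of_ne hij]
      simp
  · simp only [sg, if_true]
    have hc1 : (Sgn q B j true).count (q / x) = 0 := by
      rw [Multiset.count_eq_zero]
      simp only [Sgn, if_true]
      exact hD2 i j x hx
    rw [hc1]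
    by_cases hij : i = j
    · subst hij
      rw [Multiset.count_eq_one_of_mem hnd, Pi.single_eq_same]
      · simp
      · simp only [Sgn, if_true]
        exact hx
    · have hc2 : (Sgn q B j true).count x = 0 := by
        rw [Multiset.count_eq_zero]
        intro hmem
        simp only [Sgn, if_true] at hmem
        exact hij (hD1 i j x hx hmem)
      rw [hc2, Pi.single_eq_of_ne hij]
      simp

/-- **Monomials with exponents in a relation module.** -/
theorem mono_mem2 (hq : q ≠ 0) (h0 : ∀ j, ∀ x ∈ B j, x ≠ 0) (hne : ∀ j, (B j).Nonempty)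
    (hD1 : ∀ i j, ∀ x, x ∈ B i → x ∈ B j → i = j)
    (hD2 : ∀ i j, ∀ x, x ∈ B i → q / x ∉ B j) (Al : J → Bool → J → Bool → Prop)
    (R : (J → ℤ) → Prop)
    (hR : ∀ t, R t → (∃ j, t j ≠ 0) → ∃ i ε j ε', i ≠ j ∧ Al i ε j ε' ∧ 0 < sg ε * t i ∧
      0 < sg ε' * t j ∧
      R (t - (Pi.single i (sg ε) : J → ℤ) - (Pi.single j (sg ε') : J → ℤ))) :
    ∀ (n : ℕ) (L : List (V × K)), L.length = n →
      (∀ e ∈ L, (∃ j, e.2 ∈ B j ∨ q / e.2 ∈ B j) ∧ F e.1 = e.2 • e.1) →
      (∃ t : J → ℤ, R t ∧ ∀ j, ∀ x ∈ B j,
        ((L.map Prod.snd).count x : ℤ) - ((L.map Prod.snd).count (q / x) : ℤ) = t j) →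
      (L.map (fun e => ι K e.1)).prod ∈ Algebra.adjoin K (gens2 F q B Al) := by
  classical
  intro n
  induction n using Nat.strong_induction_on with
  | _ n ih =>
    intro L hLn hL ⟨t, hRt, ht⟩
    set E : Set K := {x | ∃ j, x ∈ B j ∨ q / x ∈ B j} with hEdef
    have hx0 : ∀ x ∈ E, x ≠ 0 := by
      rintro x ⟨j, hj | hj⟩
      · exact h0 j x hj
      · rintro rfl
        rw [div_zero] at hj
        exact h0 j 0 hj rfl
    have hqq : ∀ x : K, x ≠ 0 → q / (q / x) = x := fun x hx => qq hq hx
    by_cases hbal : ∀ j, t j = 0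
    · -- balanced
      have hE : ∀ x ∈ E, x ≠ 0 ∧ q / x ≠ x := by
        intro x hx
        refine ⟨hx0 x hx, ?_⟩
        intro h
        obtain ⟨j, hj | hj⟩ := hx
        · exact hD2 j j x hj (by rw [h]; exact hj)
        · exact hD2 j j _ hj (by rw [hqq x (hx0 x ⟨j, Or.inr hj⟩), ← h]; exact hj)
      have hb : ∀ x ∈ E, (L.map Prod.snd).count x = (L.map Prod.snd).count (q / x) := by
        rintro x ⟨j, hj | hj⟩
        · have := ht j x hj
          rw [hbal] at this
          omega
        · have := ht j _ hj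
          rw [hbal, hqq x (hx0 x ⟨j, Or.inr hj⟩)] at this
          omega
      have h1 := prod_mem_adjoin F q E hE L.length L rfl (fun e he => hL e he) hb
      refine Algebra.adjoin_mono ?_ h1
      intro w hw
      exact Or.inl hw
    · -- extract two blocks
      push Not at hbal
      obtain ⟨i, ε, j, ε', hij, hal, hti, htj, hRt'⟩ := hR t hRt hbal
      have hsub : ∀ (i : J) (ε : Bool), 0 < sg ε * t i → ∀ x ∈ Sgn q B i ε, x ∈ L.map Prod.snd := by
        intro i ε hti x hx
        cases ε
        · simp only [sg, Bool.false_eq_true, if_false] at hti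
          simp only [Sgn, Bool.false_eq_true, if_false] at hx
          rw [Multiset.mem_map] at hx
          obtain ⟨y, hy, rfl⟩ := hx
          have h1 := ht i y hy
          rw [← List.count_pos_iff]
          omega
        · simp only [sg, if_true] at hti
          simp only [Sgn, if_true] at hx
          have h1 := ht i x hx
          rw [← List.count_pos_iff]
          omega
      have hnd : (Sgn q B i ε + Sgn q B j ε').Nodup := by
        rw [Multiset.nodup_add]
        refine ⟨sgn_nodup hq h0 i ε, sgn_nodup hq h0 j ε', ?_⟩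
        rw [Multiset.disjoint_left]
        intro x h1 h2
        exact sgn_disj hq h0 hD1 hD2 hij ε ε' x h1 h2
      have hle : Sgn q B i ε + Sgn q B j ε' ≤ ((L.map Prod.snd : List K) : Multiset K) := by
        rw [Multiset.le_iff_subset hnd]
        intro x hx
        rw [Multiset.mem_add] at hx
        rw [Multiset.mem_coe]
        rcases hx with hx | hx
        · exact hsub i ε hti x hx
        · exact hsub j ε' htj x hx
      obtain ⟨L₁, L₃, hperm, hL₁⟩ := extract _ L hle
      obtain ⟨M₁, M₂, hperm', hM₁⟩ := extract (Sgn q B i ε) L₁ (by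
        rw [hL₁]; exact Multiset.le_add_right _ _)
      have hM₂ : ((M₂.map Prod.snd : List K) : Multiset K) = Sgn q B j ε' := by
        have h1 : ((L₁.map Prod.snd : List K) : Multiset K) =
            ((M₁.map Prod.snd : List K) : Multiset K) + ((M₂.map Prod.snd : List K) : Multiset K) := by
          rw [Multiset.coe_eq_coe.2 (hperm'.map Prod.snd), List.map_append, Multiset.coe_add]
        rw [hL₁, hM₁] at h1
        exact (add_left_cancel h1).symm
      have hlen : L.length = L₁.length + L₃.length := by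
        rw [hperm.length_eq, List.length_append]
      have hL₁pos : 0 < L₁.length := by
        have := congrArg Multiset.card hL₁
        rw [Multiset.coe_card, List.length_map, Multiset.card_add, sgn_card, sgn_card] at this
        have := Finset.card_pos.2 (hne i)
        omega
      have hmemL : ∀ e, e ∈ L₁ ∨ e ∈ L₃ → e ∈ L := by
        intro e he
        rw [hperm.mem_iff, List.mem_append]
        exact he
      have hmemL₁ : ∀ e, e ∈ M₁ ∨ e ∈ M₂ → e ∈ L₁ := by
        intro e he
        rw [hperm'.mem_iff, List.mem_append]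
        exact he
      obtain ⟨c, hc⟩ := prod_perm (K := K) (fun e : V × K => e.1) hperm
      obtain ⟨c', hc'⟩ := prod_perm (K := K) (fun e : V × K => e.1) hperm'
      rw [List.map_append, List.prod_append] at hc hc'
      have hgen : (M₁.map (fun e => ι K e.1)).prod * (M₂.map (fun e => ι K e.1)).prod ∈
          Algebra.adjoin K (gens2 F q B Al) := by
        refine Algebra.subset_adjoin (Or.inr ⟨i, ε, j, ε', hal, _, ?_, _, ?_, rfl⟩)
        · exact ⟨M₁, hM₁, fun e he => (hL e (hmemL e (Or.inl (hmemL₁ e (Or.inl he))))).2, rfl⟩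
        · exact ⟨M₂, hM₂, fun e he => (hL e (hmemL e (Or.inl (hmemL₁ e (Or.inr he))))).2, rfl⟩
      have hrec := ih L₃.length (by omega) L₃ rfl
        (fun e he => hL e (hmemL e (Or.inr he)))
        ⟨t - (Pi.single i (sg ε) : J → ℤ) - (Pi.single j (sg ε') : J → ℤ), hRt', by
          intro i' x hx
          have h1 := ht i' x hx
          have h2 := sgn_count hq h0 hD1 hD2 i ε i' x hx
          have h3 := sgn_count hq h0 hD1 hD2 j ε' i' x hx
          have h4 : ∀ y : K, (L.map Prod.snd).count y = (Sgn q B i ε).count y +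
              (Sgn q B j ε').count y + (L₃.map Prod.snd).count y := by
            intro y
            rw [(hperm.map Prod.snd).count_eq, List.map_append, List.count_append,
              ← Multiset.count_add, ← hL₁, Multiset.coe_count]
          rw [h4, h4] at h1
          rw [Pi.sub_apply, Pi.sub_apply, ← h2, ← h3, ← h1]
          push_cast
          ring⟩
      rw [hc, hc', smul_mul_assoc]
      exact Subalgebra.smul_mem _ (Subalgebra.smul_mem _ (Subalgebra.mul_mem _ hgen hrec) c') c

end ext

end Pool.Agent.L5helper29.SE
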