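import Pool.Agent.L5helper29.AS.RelC

/-!
# Multiplicative relations between complex numbers, the second case
-/

set_option autoImplicit false
set_option linter.all false

namespace Pool.Agent.L5helper29.SE

open Finset Pool.Agent.L5helper29.AS

section Rel

variable {J : Type*} [Fintype J] [DecidableEq J]

variable {q : ℕ} (hq : 1 < q) (B : J → Finset ℂ) (G : Subgroup (RingAut ℂ))

/-- the hypothesis on the Galois action on one of the sets -/
def GalOK2 (G : Subgroup (RingAut ℂ)) (S : Finset ℂ) : Prop :=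
  (∀ x ∈ S, ∀ y ∈ S, ∀ x' ∈ S, ∀ y' ∈ S, x ≠ y → x' ≠ y' →
    ∃ σ ∈ G, σ x = x' ∧ σ y = y') ∨
  (S.card.Prime ∧ ∀ x ∈ S, ∀ y ∈ S, ∃ σ ∈ G, σ x = y)

/-- **The multiplicative relations.** -/
theorem rel_main2 (hq : 1 < q) (hG : ∀ σ ∈ G, ∀ j, ∀ x ∈ B j, σ x ∈ B j)
    (hnorm : ∀ j, ∀ x ∈ B j, ‖x‖ = Real.sqrt q)
    (h1 : ∀ j, GalOK2 G (B j))
    (hnd : ∀ j, ∃ x ∈ B j, ∃ y ∈ B j, ∀ N : ℕ, 0 < N → x ^ N ≠ y ^ N)
    (h2 : ∀ j, ∃ σ ∈ G, (∀ i, i ≠ j → ∀ x ∈ B i, σ x = x) ∧ ∃ x ∈ B j, σ x ≠ x)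
    (m : ∀ j, B j → ℤ) (N : ℕ) (hN : 0 < N) (k : ℤ) (hm : mono B m ^ N = (q : ℂ) ^ k)
    (j : J) (x y : B j) : m j x = m j y := by
  classical
  have hq0 : (0 : ℝ) < q := by exact_mod_cast (by omega : 0 < q)
  have hqC : (q : ℂ) ≠ 0 := by exact_mod_cast (by omega : q ≠ 0)
  have h0 : ∀ j, ∀ x ∈ B j, x ≠ 0 := by
    intro j x hx h
    have := hnorm j x hx
    rw [h, norm_zero] at this
    exact (Real.sqrt_pos.2 hq0).ne this
  letI act : ∀ j, MulAction G (B j) := fun j =>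
    { smul := fun σ x => ⟨(σ : RingAut ℂ) (x : ℂ), hG σ σ.2 j x x.2⟩
      one_smul := fun x => Subtype.ext rfl
      mul_smul := fun σ τ x => Subtype.ext rfl }
  have hsm : ∀ (j : J) (σ : G) (x : B j), ((σ • x : B j) : ℂ) = (σ : RingAut ℂ) (x : ℂ) :=
    fun j σ x => rfl
  set R := RelSp B h0 (q : ℂ) hqC with hR
  -- stability
  have hRG : ∀ (g : G), ∀ m ∈ R, (fun j (x : B j) => m j (g⁻¹ • x)) ∈ R := by
    rintro g m ⟨M, hM, m', hm', l, hl⟩
    refine ⟨M, hM, fun j x => m' j (g⁻¹ • x), fun j x => hm' j _, l, ?_⟩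
    have e1 := congrArg (g : RingAut ℂ) hl
    rw [map_zpow₀, map_natCast] at e1
    rw [← e1]
    unfold mono
    rw [map_prod]
    refine prod_congr rfl fun i _ => ?_
    rw [map_prod]
    refine (Fintype.prod_equiv (MulAction.toPerm g) _ _ ?_).symm
    intro x
    rw [map_zpow₀]
    simp only [MulAction.toPerm_apply, inv_smul_smul]
    rfl
  -- irreducibility
  have hirr : ∀ j, Irr G (B j) := by
    intro j
    rcases h1 j with h | ⟨h, h'⟩
    · apply irr_of_two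
      intro x y x' y' hxy hxy'
      obtain ⟨σ, hσ, e1, e2⟩ := h x x.2 y y.2 x' x'.2 y' y'.2
        (fun e => hxy (Subtype.ext e)) (fun e => hxy' (Subtype.ext e))
      exact ⟨⟨σ, hσ⟩, Subtype.ext e1, Subtype.ext e2⟩
    · apply irr_of_prime
      · rw [Fintype.card_coe]
        exact h
      · intro x y
        obtain ⟨σ, hσ, e1⟩ := h' x x.2 y y.2
        exact ⟨⟨σ, hσ⟩, Subtype.ext e1⟩
  have h3 : ∀ j, ¬ ∀ x y : B j, (Pi.single j ((Pi.single x (1 : ℚ) : B j → ℚ) - Pi.single y 1) :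
      ∀ j, B j → ℚ) ∈ R := by
    intro j h
    obtain ⟨x, hx, y, hy, hxy⟩ := hnd j
    have hne : (⟨x, hx⟩ : B j) ≠ ⟨y, hy⟩ := by
      intro h
      have h4 : x = y := congrArg Subtype.val h
      exact hxy 1 one_pos (by rw [h4])
    obtain ⟨M, hM, m', hm', l, hl⟩ := h ⟨x, hx⟩ ⟨y, hy⟩
    have e1 : m' j ⟨x, hx⟩ = M := by
      have e2 := hm' j ⟨x, hx⟩
      rw [Pi.single_eq_same, Pi.sub_apply, Pi.single_eq_same, Pi.single_eq_of_ne hne, sub_zero,
        mul_one] at e2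
      exact_mod_cast e2.symm
    have e2 : m' j ⟨y, hy⟩ = -M := by
      have e2 := hm' j ⟨y, hy⟩
      rw [Pi.single_eq_same, Pi.sub_apply, Pi.single_eq_same, Pi.single_eq_of_ne hne.symm,
        zero_sub, mul_neg, mul_one] at e2
      exact_mod_cast e2.symm
    have e3 : mono B m' = x ^ (M : ℤ) * y ^ (-(M : ℤ)) := by
      unfold mono
      rw [prod_eq_single j]
      · rw [← prod_subset (subset_univ ({⟨x, hx⟩, ⟨y, hy⟩} : Finset (B j))), prod_pair hne, e1, e2]
        intro z _ hz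
        rw [mem_insert, mem_singleton, not_or] at hz
        have e4 := hm' j z
        rw [Pi.single_eq_same, Pi.sub_apply, Pi.single_eq_of_ne hz.1, Pi.single_eq_of_ne hz.2,
          sub_zero, mul_zero] at e4
        have e5 : m' j z = 0 := by exact_mod_cast e4.symm
        rw [e5, zpow_zero]
      · intro i _ hi
        apply prod_eq_one
        intro z _
        have e4 := hm' i z
        rw [Pi.single_eq_of_ne hi, Pi.zero_apply, mul_zero] at e4
        have e5 : m' i z = 0 := by exact_mod_cast e4.symm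
        rw [e5, zpow_zero]
      · intro h
        exact absurd (mem_univ _) h
    rw [e3] at hl
    have hs0 : (0 : ℝ) < Real.sqrt q := Real.sqrt_pos.2 hq0
    have e4 : l = 0 := by
      have e5 := congrArg norm hl
      rw [norm_mul, norm_zpow, norm_zpow, norm_zpow, hnorm j x hx, hnorm j y hy,
        ← zpow_add₀ hs0.ne', add_neg_cancel, zpow_zero, Complex.norm_natCast] at e5
      have e6 : (q : ℝ) ^ (0 : ℤ) = (q : ℝ) ^ l := by rw [zpow_zero, e5]
      exact (zpow_right_injective₀ hq0 (by exact_mod_cast (by omega : q ≠ 1)) e6).symm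
    rw [e4, zpow_zero, zpow_neg, mul_inv_eq_one₀ (zpow_ne_zero _ (h0 j y hy)), zpow_natCast,
      zpow_natCast] at hl
    exact hxy M hM hl
  have h2' : ∃ g : G, (∀ i, i ≠ j → ∀ x : B i, g • x = x) ∧ ∃ x : B j, g • x ≠ x := by
    obtain ⟨σ, hσ, e1, x, hx, e2⟩ := h2 j
    refine ⟨⟨σ, hσ⟩, fun i hi x => Subtype.ext (e1 i hi x x.2), ⟨x, hx⟩, ?_⟩
    intro h
    exact e2 (congrArg Subtype.val h)
  have hmR : (fun j (x : B j) => (m j x : ℚ)) ∈ R := by
    refine ⟨N, hN, fun j x => (N : ℤ) * m j x, ?_, k, ?_⟩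
    · intro j x
      push_cast
      ring
    · rw [mono_smul h0, zpow_natCast, hm]
  have := rel_const (G := G) (fun j => B j) R hRG j (hirr j) h2' (h3 j) _ hmR x y
  exact_mod_cast this

end Rel

end Pool.Agent.L5helper29.SE
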