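import Pool.Agent.L5helper29.AS.Comb
import Pool.Agent.L5helper29.SE.Rel2
import Pool.Agent.L5helper29.SE.Ext2

/-!
# Tate classes from the Galois action on the eigenvalues, the second case
-/

set_option autoImplicit false
set_option linter.all false

namespace Pool.Agent.L5helper29.SE

open Finset Pool.Agent.L5helper29.AS

section

variable {J : Type*} [Fintype J] [DecidableEq J] (B : J → Finset ℂ)

/-- the relations between the products of the blocks -/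
def RelD (q : ℕ) (t : J → ℤ) : Prop :=
  ∃ N : ℕ, 0 < N ∧ ∃ k : ℤ, (∏ j, (∏ x ∈ B j, x) ^ t j) ^ N = (q : ℂ) ^ k

theorem comb_core {q : ℕ} (hq : 1 < q) (h3 : ∀ j, 3 ≤ (B j).card)
    (hnorm : ∀ j, ∀ x ∈ B j, ‖x‖ = Real.sqrt q)
    (rel : ∀ (m : ∀ j, B j → ℤ) (N : ℕ), 0 < N → ∀ k : ℤ, mono B m ^ N = (q : ℂ) ^ k →
      ∀ (j : J) (x y : B j), m j x = m j y) :
    (∀ i j, ∀ x, x ∈ B i → x ∈ B j → i = j) ∧ (∀ i j, ∀ x, x ∈ B i → (q : ℂ) / x ∉ B j) ∧
    ∀ (m s : ℕ), 1 ≤ s → ∀ l : List ℂ, (∀ a ∈ l, ∃ j, a ∈ B j ∨ (q : ℂ) / a ∈ B j) →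
      l.prod ^ s = ((q : ℂ) ^ m) ^ s → ∃ t : J → ℤ, RelD B q t ∧ ∀ j, ∀ x ∈ B j,
        (l.count x : ℤ) - (l.count ((q : ℂ) / x) : ℤ) = t j := by
  classical
  have hq0 : (0 : ℝ) < q := by exact_mod_cast (by omega : 0 < q)
  have hqC : (q : ℂ) ≠ 0 := by exact_mod_cast (by omega : q ≠ 0)
  have h0 : ∀ j, ∀ x ∈ B j, x ≠ 0 := by
    intro j x hx h
    have := hnorm j x hx
    rw [h, norm_zero] at this
    exact (Real.sqrt_pos.2 hq0).ne this
  -- another element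
  have hother : ∀ (j : J) (x y : ℂ), ∃ z ∈ B j, z ≠ x ∧ z ≠ y := by
    intro j x y
    by_contra hn
    push Not at hn
    have h4 : B j ⊆ {x, y} := by
      intro z hz
      rw [mem_insert, mem_singleton]
      by_cases hzx : z = x
      · exact Or.inl hzx
      · exact Or.inr (hn z hz hzx)
    have := (card_le_card h4).trans card_le_two
    have := h3 j
    omega
  -- the exponents of two elements
  have key : ∀ (i j : J) (a : B i) (b : B j) (ca cb : ℤ) (k : ℤ), 0 < ca → (cb ≤ 0 → i ≠ j) →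
      (a : ℂ) ^ ca * (b : ℂ) ^ cb = (q : ℂ) ^ k → False := by
    intro i j a b ca cb k hca hcb hab
    have h4 := rel ((Pi.single i (Pi.single a ca : B i → ℤ) : ∀ j, B j → ℤ) +
      Pi.single j (Pi.single b cb : B j → ℤ)) 1 one_pos k (by
        rw [pow_one, mono_add h0, ← hab]
        have h5 : ∀ (i : J) (a : B i) (c : ℤ),
            mono B (Pi.single i (Pi.single a c : B i → ℤ) : ∀ j, B j → ℤ) = (a : ℂ) ^ c := by
          intro i a c
          unfold mono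
          rw [prod_eq_single i, prod_eq_single a]
          · rw [Pi.single_eq_same, Pi.single_eq_same]
          · intro y _ hy
            rw [Pi.single_eq_same, Pi.single_eq_of_ne hy, zpow_zero]
          · intro h
            exact absurd (mem_univ _) h
          · intro i' _ hi
            apply prod_eq_one
            intro y _
            rw [Pi.single_eq_of_ne hi, Pi.zero_apply, zpow_zero]
          · intro h
            exact absurd (mem_univ _) h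
        rw [h5, h5])
    obtain ⟨z, hz, hza, hzb⟩ := hother i a b
    have h5 := h4 i a ⟨z, hz⟩
    simp only [Pi.add_apply, Pi.single_eq_same] at h5
    have h6 : (Pi.single a ca : B i → ℤ) ⟨z, hz⟩ = 0 := by
      apply Pi.single_eq_of_ne
      intro h
      exact hza (congrArg Subtype.val h)
    rw [h6] at h5
    by_cases hij : i = j
    · subst hij
      rw [Pi.single_eq_same] at h5
      have h7 : (Pi.single b cb : B i → ℤ) ⟨z, hz⟩ = 0 := by
        apply Pi.single_eq_of_ne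
        intro h
        exact hzb (congrArg Subtype.val h)
      rw [h7] at h5
      have hcb' : 0 < cb := by
        by_contra hle
        exact hcb (by omega) rfl
      have h8 : (0 : ℤ) ≤ (Pi.single b cb : B i → ℤ) a := by
        rw [Pi.single_apply]
        split_ifs <;> omega
      omega
    · rw [Pi.single_eq_of_ne hij] at h5
      simp only [Pi.zero_apply] at h5
      omega
  have hD1 : ∀ i j, ∀ x, x ∈ B i → x ∈ B j → i = j := by
    intro i j x hi hj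
    by_contra hne
    refine key i j ⟨x, hi⟩ ⟨x, hj⟩ 1 (-1) 0 one_pos (fun _ => hne) ?_
    rw [zpow_one, zpow_neg, zpow_one, zpow_zero]
    exact mul_inv_cancel₀ (h0 i x hi)
  have hD2 : ∀ i j, ∀ x, x ∈ B i → (q : ℂ) / x ∉ B j := by
    intro i j x hi hj
    refine key i j ⟨x, hi⟩ ⟨_, hj⟩ 1 1 1 one_pos (fun h => by omega) ?_
    rw [zpow_one, zpow_one, zpow_one]
    have := h0 i x hi
    field_simp
  refine ⟨hD1, hD2, ?_⟩
  intro m s hs l hlE hLprod
  have h4 := list_prod B (q : ℂ) hqC h0 hD1 hD2 l hlE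
  set μ : ∀ j, B j → ℤ := fun j x => (l.count (x : ℂ) : ℤ) - (l.count ((q : ℂ) / x) : ℤ) with hμ
  set c : ℕ := ∑ j, ∑ x : B j, l.count ((q : ℂ) / x) with hc
  have h5 : l.prod = mono B μ * (q : ℂ) ^ c := by
    rw [h4, hc, ← prod_pow_eq_pow_sum]
    unfold mono
    rw [← prod_mul_distrib]
    refine prod_congr rfl fun j _ => ?_
    rw [← prod_pow_eq_pow_sum, ← prod_mul_distrib]
    refine prod_congr rfl fun x _ => ?_
    have hx0 := h0 j x x.2
    rw [hμ]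
    simp only
    rw [zpow_sub₀ hx0, zpow_natCast, zpow_natCast, div_pow]
    field_simp
  have h6 : mono B μ ^ s = (q : ℂ) ^ ((m * s : ℤ) - (c * s : ℤ)) := by
    have h7 : (mono B μ * (q : ℂ) ^ c) ^ s = ((q : ℂ) ^ m) ^ s := by
      rw [← h5]
      exact hLprod
    rw [mul_pow] at h7
    rw [zpow_sub₀ hqC, eq_div_iff (zpow_ne_zero _ hqC)]
    have e1 : (q : ℂ) ^ ((c : ℤ) * (s : ℤ)) = ((q : ℂ) ^ c) ^ s := by
      rw [zpow_mul]
      norm_cast
    have e2 : (q : ℂ) ^ ((m : ℤ) * (s : ℤ)) = ((q : ℂ) ^ m) ^ s := by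
      rw [zpow_mul]
      norm_cast
    rw [e1, e2]
    exact h7
  have h7 := rel μ s (by omega) _ h6
  have hne : ∀ j, ∃ z : ℂ, z ∈ B j := fun j => card_pos.1 (by have := h3 j; omega)
  choose z hz using hne
  refine ⟨fun j => μ j ⟨z j, hz j⟩, ⟨s, by omega, (m * s : ℤ) - (c * s : ℤ), ?_⟩, ?_⟩
  · rw [← h6]
    congr 1
    unfold mono
    refine prod_congr rfl fun j _ => ?_
    rw [← prod_zpow, ← prod_coe_sort (B j) (fun x : ℂ => x ^ μ j ⟨z j, hz j⟩)]
    refine prod_congr rfl fun x _ => ?_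
    rw [h7 j x ⟨z j, hz j⟩]
  · intro j y hy
    exact h7 j ⟨y, hy⟩ ⟨z j, hz j⟩

variable {V : Type*} [AddCommGroup V] [Module ℂ V] (Φ : V →ₗ[ℂ] V)

/-- **The case of arbitrary relations.** -/
theorem tate_combA {q : ℕ} (hq : 1 < q) (h3 : ∀ j, 3 ≤ (B j).card)
    (hnorm : ∀ j, ∀ x ∈ B j, ‖x‖ = Real.sqrt q)
    (rel : ∀ (m : ∀ j, B j → ℤ) (N : ℕ), 0 < N → ∀ k : ℤ, mono B m ^ N = (q : ℂ) ^ k →
      ∀ (j : J) (x y : B j), m j x = m j y)
    (hspan : Submodule.span ℂ {v : V | ∃ μ : ℂ, (∃ j, μ ∈ B j ∨ (q : ℂ) / μ ∈ B j) ∧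
      Φ v = μ • v} = ⊤)
    (m s : ℕ) (hs : 1 ≤ s) (x : ExteriorAlgebra ℂ V) (hx : x ∈ ⋀[ℂ]^(2 * m) V)
    (hFx : ExteriorAlgebra.map (Φ ^ s) x = ((q : ℂ) ^ m) ^ s • x) :
    x ∈ Algebra.adjoin ℂ (gens Φ (q : ℂ) B) := by
  classical
  have hq0 : (0 : ℝ) < q := by exact_mod_cast (by omega : 0 < q)
  have hqC : (q : ℂ) ≠ 0 := by exact_mod_cast (by omega : q ≠ 0)
  have h0 : ∀ j, ∀ x ∈ B j, x ≠ 0 := by
    intro j x hx h
    have := hnorm j x hx
    rw [h, norm_zero] at this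
    exact (Real.sqrt_pos.2 hq0).ne this
  obtain ⟨hD1, hD2, hcore⟩ := comb_core B hq h3 hnorm rel
  refine mem_adjoin_gen Φ (q : ℂ) {x | ∃ j, x ∈ B j ∨ (q : ℂ) / x ∈ B j} hspan m s _ ?_ x hx hFx
  intro L hLlen hL hLprod
  obtain ⟨t, _, ht⟩ := hcore m s hs (L.map Prod.snd) (by
    intro a ha
    obtain ⟨e, he, rfl⟩ := List.mem_map.1 ha
    exact (hL e he).1) hLprod
  exact (mono_mem Φ (q : ℂ) B hqC h0 (fun j => card_pos.1 (by have := h3 j; omega)) hD1 hD2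
    L.length L rfl hL ⟨t, ht⟩).1 (by rw [hLlen]; exact even_two_mul m)

/-- **The case of few relations.** -/
theorem tate_combB {q : ℕ} (hq : 1 < q) (h3 : ∀ j, 3 ≤ (B j).card)
    (hnorm : ∀ j, ∀ x ∈ B j, ‖x‖ = Real.sqrt q)
    (rel : ∀ (m : ∀ j, B j → ℤ) (N : ℕ), 0 < N → ∀ k : ℤ, mono B m ^ N = (q : ℂ) ^ k →
      ∀ (j : J) (x y : B j), m j x = m j y)
    (Al : J → Bool → J → Bool → Prop)
    (hR : ∀ t, RelD B q t → (∃ j, t j ≠ 0) → ∃ i ε j ε', i ≠ j ∧ Al i ε j ε' ∧ 0 < sg ε * t i ∧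
      0 < sg ε' * t j ∧
      RelD B q (t - (Pi.single i (sg ε) : J → ℤ) - (Pi.single j (sg ε') : J → ℤ)))
    (hspan : Submodule.span ℂ {v : V | ∃ μ : ℂ, (∃ j, μ ∈ B j ∨ (q : ℂ) / μ ∈ B j) ∧
      Φ v = μ • v} = ⊤)
    (m s : ℕ) (hs : 1 ≤ s) (x : ExteriorAlgebra ℂ V) (hx : x ∈ ⋀[ℂ]^(2 * m) V)
    (hFx : ExteriorAlgebra.map (Φ ^ s) x = ((q : ℂ) ^ m) ^ s • x) :
    x ∈ Algebra.adjoin ℂ (gens2 Φ (q : ℂ) B Al) := by
  classical
  have hq0 : (0 : ℝ) < q := by exact_mod_cast (by omega : 0 < q)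
  have hqC : (q : ℂ) ≠ 0 := by exact_mod_cast (by omega : q ≠ 0)
  have h0 : ∀ j, ∀ x ∈ B j, x ≠ 0 := by
    intro j x hx h
    have := hnorm j x hx
    rw [h, norm_zero] at this
    exact (Real.sqrt_pos.2 hq0).ne this
  obtain ⟨hD1, hD2, hcore⟩ := comb_core B hq h3 hnorm rel
  refine mem_adjoin_gen Φ (q : ℂ) {x | ∃ j, x ∈ B j ∨ (q : ℂ) / x ∈ B j} hspan m s _ ?_ x hx hFx
  intro L hLlen hL hLprod
  obtain ⟨t, hRt, ht⟩ := hcore m s hs (L.map Prod.snd) (by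
    intro a ha
    obtain ⟨e, he, rfl⟩ := List.mem_map.1 ha
    exact (hL e he).1) hLprod
  exact mono_mem2 Φ hqC h0 (fun j => card_pos.1 (by have := h3 j; omega)) hD1 hD2 Al (RelD B q) hR
    L.length L rfl hL ⟨t, hRt, ht⟩

end

end Pool.Agent.L5helper29.SE
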