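import Mathlib

/-!
# Interpolation: symmetric powers of the affine line and hyperplanes
-/

set_option autoImplicit false
set_option linter.all false

namespace Pool.Agent.L5helper29.SE

open Polynomial Finset

section

variable {E : Type} [Field E]

lemma der_root {d : ℕ} (a : E) (r : Fin d → E) (i : Fin d) :
    (derivative (C a * ∏ j, (X - C (r j)))).eval (r i) = a * ∏ j ∈ univ.erase i, (r i - r j) := by
  rw [derivative_C_mul, eval_C_mul]
  congr 1
  have h1 := Lagrange.eval_nodal_derivative_eval_node_eq (s := (univ : Finset (Fin d))) (v := r)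
    (mem_univ i)
  rw [Lagrange.eval_nodal] at h1
  exact h1

lemma der_ne {d : ℕ} {a : E} (ha : a ≠ 0) {r : Fin d → E} (hr : Function.Injective r) (i : Fin d) :
    (derivative (C a * ∏ j, (X - C (r j)))).eval (r i) ≠ 0 := by
  rw [der_root]
  refine mul_ne_zero ha (prod_ne_zero_iff.2 ?_)
  intro j hj
  rw [mem_erase] at hj
  exact sub_ne_zero.2 (fun h => hj.1 (hr h).symm)

/-- the values at the roots of `f`, divided by those of `f' / a` -/
noncomputable def wt {d : ℕ} (a : E) (r : Fin d → E) (h : E[X]) (i : Fin d) : E :=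
  a * h.eval (r i) / (derivative (C a * ∏ j, (X - C (r j)))).eval (r i)

lemma wt_eq {d : ℕ} {a : E} (ha : a ≠ 0) {r : Fin d → E} (hr : Function.Injective r) (h : E[X])
    (i : Fin d) : wt a r h i = h.eval (r i) / ∏ j ∈ univ.erase i, (r i - r j) := by
  unfold wt
  rw [der_root]
  exact mul_div_mul_left _ _ ha

lemma wt_sum {d : ℕ} {a : E} (ha : a ≠ 0) {r : Fin d → E} (hr : Function.Injective r) {h : E[X]}
    (hh : h.degree < d) : ∑ i, wt a r h i = h.coeff (d - 1) := by
  have h1 := Lagrange.coeff_eq_sum (s := (univ : Finset (Fin d))) (v := r) (hr.injOn)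
    (P := h) (by rw [card_univ, Fintype.card_fin]; exact hh)
  rw [card_univ, Fintype.card_fin] at h1
  rw [h1]
  exact sum_congr rfl fun i _ => wt_eq ha hr h i

/-- **Interpolation.** -/
theorem wt_bij {d : ℕ} (hd : 1 ≤ d) {a : E} (ha : a ≠ 0) {r : Fin d → E}
    (hr : Function.Injective r) :
    Set.BijOn (wt a r) {h | h.Monic ∧ h.natDegree = d - 1} {w | ∑ i, w i = 1} := by
  have hdeg : ∀ h : E[X], h.Monic → h.natDegree = d - 1 → h.degree < d := by
    intro h h1 h2
    rw [degree_eq_natDegree h1.ne_zero, h2]
    exact_mod_cast (by omega : d - 1 < d)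
  refine ⟨?_, ?_, ?_⟩
  · rintro h ⟨h1, h2⟩
    rw [Set.mem_setOf_eq, wt_sum ha hr (hdeg h h1 h2), ← h2]
    exact h1
  · rintro g ⟨g1, g2⟩ h ⟨h1, h2⟩ hgh
    have e1 : ∀ i, g.eval (r i) = h.eval (r i) := by
      intro i
      have e2 := congrFun hgh i
      unfold wt at e2
      rw [div_left_inj' (der_ne ha hr i)] at e2
      exact mul_left_cancel₀ ha e2
    refine eq_of_degrees_lt_of_eval_index_eq (univ : Finset (Fin d)) (hr.injOn) ?_ ?_
      (fun i _ => e1 i)
    · rw [card_univ, Fintype.card_fin]
      exact hdeg g g1 g2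
    · rw [card_univ, Fintype.card_fin]
      exact hdeg h h1 h2
  · intro w hw
    rw [Set.mem_setOf_eq] at hw
    set h := Lagrange.interpolate univ r (fun i => w i * ∏ j ∈ univ.erase i, (r i - r j)) with hh
    have hD : ∀ i, ∏ j ∈ univ.erase i, (r i - r j) ≠ 0 := by
      intro i
      refine prod_ne_zero_iff.2 ?_
      intro j hj
      rw [mem_erase] at hj
      exact sub_ne_zero.2 (fun h => hj.1 (hr h).symm)
    have h1 : h.degree < d := by
      have := Lagrange.degree_interpolate_lt (s := (univ : Finset (Fin d))) (v := r)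
        (fun i => w i * ∏ j ∈ univ.erase i, (r i - r j)) hr.injOn
      rwa [card_univ, Fintype.card_fin] at this
    have h3 : wt a r h = w := by
      funext i
      rw [wt_eq ha hr, hh, Lagrange.eval_interpolate_at_node _ hr.injOn (mem_univ i)]
      exact mul_div_cancel_right₀ _ (hD i)
    have h2 := wt_sum ha hr h1
    rw [h3, hw] at h2
    have h4 : h.natDegree = d - 1 := by
      apply le_antisymm
      · have h5 : h ≠ 0 := by
          intro h5
          rw [h5, coeff_zero] at h2
          exact one_ne_zero h2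
        rw [degree_eq_natDegree h5] at h1
        have : h.natDegree < d := by exact_mod_cast h1
        omega
      · apply le_natDegree_of_ne_zero
        rw [← h2]
        exact one_ne_zero
    refine ⟨h, ⟨?_, h4⟩, h3⟩
    rw [Monic, leadingCoeff, h4, ← h2]

/-- **The product of the values of `f`.** -/
theorem wt_prod {d : ℕ} (hd : 1 ≤ d) {a : E} (ha : a ≠ 0) {r : Fin d → E}
    (hr : Function.Injective r) {h : E[X]} (hm : h.Monic) (hn : h.natDegree = d - 1)
    (K : Type) [Field K] [IsAlgClosed K] [Algebra E K] :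
    ((h.aroots K).map (fun z => aeval z (C a * ∏ j, (X - C (r j))))).prod =
      algebraMap E K ((∏ i, (derivative (C a * ∏ j, (X - C (r j)))).eval (r i)) / a *
        ∏ i, wt a r h i) := by
  have hD : ∀ i, (derivative (C a * ∏ j, (X - C (r j)))).eval (r i) ≠ 0 := der_ne ha hr
  have e1 : (∏ i, (derivative (C a * ∏ j, (X - C (r j)))).eval (r i)) / a * ∏ i, wt a r h i =
      a ^ (d - 1) * ∏ i, h.eval (r i) := by
    unfold wt
    rw [prod_div_distrib, prod_mul_distrib, prod_const, card_univ, Fintype.card_fin]
    have h1 : (∏ i, (derivative (C a * ∏ j, (X - C (r j)))).eval (r i)) ≠ 0 :=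
      prod_ne_zero_iff.2 fun i _ => hD i
    obtain ⟨k, rfl⟩ : ∃ k, d = k + 1 := ⟨d - 1, by omega⟩
    rw [Nat.add_sub_cancel, pow_succ]
    field_simp
  rw [e1]
  have hcardr : (h.aroots K).card = d - 1 := by
    rw [← hn]
    have h1 : (h.map (algebraMap E K)).roots.card = (h.map (algebraMap E K)).natDegree :=
      IsAlgClosed.card_roots_eq_natDegree
    rw [natDegree_map] at h1
    exact h1
  have e2 : ∀ i, algebraMap E K (h.eval (r i)) =
      ((h.aroots K).map (fun z => algebraMap E K (r i) - z)).prod := by
    intro i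
    have h1 : (h.map (algebraMap E K)) = ((h.aroots K).map (fun z => X - C z)).prod :=
      (IsAlgClosed.splits (h.map (algebraMap E K))).eq_prod_roots_of_monic (hm.map _)
    have h2 := congrArg (fun g : K[X] => g.eval (algebraMap E K (r i))) h1
    simp only [eval_map_algebraMap, aeval_algebraMap_apply, coe_aeval_eq_eval] at h2
    rw [h2, eval_multiset_prod, Multiset.map_map]
    congr 2
    funext z
    simp
  rw [map_mul, map_pow, map_prod, prod_congr rfl fun i _ => e2 i]
  have e3 : ∀ z : K, aeval z (C a * ∏ j, (X - C (r j))) =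
      algebraMap E K a * ∏ j, (z - algebraMap E K (r j)) := by
    intro z
    rw [map_mul, aeval_C, map_prod]
    simp
  simp_rw [e3]
  rw [Multiset.prod_map_mul, Multiset.map_const', Multiset.prod_replicate, hcardr]
  congr 1
  have e4 : ∀ z : K, ∏ j, (z - algebraMap E K (r j)) =
      (-1) ^ d * ∏ j, (algebraMap E K (r j) - z) := by
    intro z
    have h1 : ∀ j, z - algebraMap E K (r j) = (-1) * (algebraMap E K (r j) - z) := by
      intro j
      ring
    rw [prod_congr rfl fun j _ => h1 j, prod_mul_distrib, prod_const, card_univ, Fintype.card_fin]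
  simp_rw [e4]
  rw [Multiset.prod_map_mul, Multiset.map_const', Multiset.prod_replicate, hcardr, ← pow_mul]
  have e5 : Even (d * (d - 1)) := by
    obtain ⟨k, rfl⟩ : ∃ k, d = k + 1 := ⟨d - 1, by omega⟩
    rw [mul_comm]
    exact Nat.even_mul_succ_self k
  rw [e5.neg_one_pow, one_mul]
  have e6 : ∀ S : Multiset K, (S.map (fun z => ∏ j, (algebraMap E K (r j) - z))).prod =
      ∏ j, (S.map (fun z => algebraMap E K (r j) - z)).prod := by
    intro S
    induction S using Multiset.induction_on with
    | empty => simp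
    | cons b S ih =>
      rw [Multiset.map_cons, Multiset.prod_cons, ih, ← prod_mul_distrib]
      refine prod_congr rfl fun j _ => ?_
      rw [Multiset.map_cons, Multiset.prod_cons]
  exact e6 _

end

end Pool.Agent.L5helper29.SE
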