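import Pool.Agent.R318.PR.Weil2

/-!
# Gauss sums, Jacobi sums, and the last coefficient of the `L`-polynomial of `χ (f x)`
-/

set_option autoImplicit false
set_option linter.all false

namespace Pool.Agent.L5helper29.SE

open Polynomial Finset
open Pool.Agent.H341R2.Sharp Pool.Agent.H435R3.Weil

section

variable {F : Type} [Field F] [Fintype F] [DecidableEq F]

/-- the Jacobi sum with `d` arguments `χ` -/
noncomputable def jac (χ : MulChar F ℂ) (d : ℕ) (t : F) : ℂ :=
  ∑ w ∈ univ.filter (fun w : Fin d → F => ∑ i, w i = t), ∏ i, χ (w i)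

lemma pow_unit (χ : MulChar F ℂ) (d : ℕ) {c : F} (hc : c ≠ 0) : (χ ^ d) c = χ c ^ d := by
  have := MulChar.pow_apply_coe χ d (Units.mk0 c hc)
  exact this

lemma jac_mul (χ : MulChar F ℂ) (d : ℕ) (t c : F) (hc : c ≠ 0) :
    jac χ d (c * t) = (χ ^ d) c * jac χ d t := by
  unfold jac
  rw [mul_sum]
  symm
  refine sum_bij' (fun w _ => fun i => c * w i) (fun w _ => fun i => c⁻¹ * w i) ?_ ?_ ?_ ?_ ?_
  · intro w hw
    rw [mem_filter] at hw ⊢
    refine ⟨mem_univ _, ?_⟩
    rw [← mul_sum, hw.2]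
  · intro w hw
    rw [mem_filter] at hw ⊢
    refine ⟨mem_univ _, ?_⟩
    rw [← mul_sum, hw.2, inv_mul_cancel_left₀ hc]
  · intro w _
    funext i
    rw [inv_mul_cancel_left₀ hc]
  · intro w _
    funext i
    rw [mul_inv_cancel_left₀ hc]
  · intro w _
    rw [pow_unit χ d hc]
    simp_rw [map_mul]
    rw [prod_mul_distrib, prod_const, card_univ, Fintype.card_fin]

lemma add_sum {ι : Type*} (ψ : AddChar F ℂ) (s : Finset ι) (g : ι → F) :
    ψ (∑ i ∈ s, g i) = ∏ i ∈ s, ψ (g i) := by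
  classical
  induction s using Finset.induction_on with
  | empty => simp
  | insert a s ha ih => rw [sum_insert ha, prod_insert ha, AddChar.map_add_eq_mul, ih]

/-- the Jacobi sum and Gauss sums -/
theorem jac_gauss (χ : MulChar F ℂ) (ψ : AddChar F ℂ) (d : ℕ) (hd : χ ^ d ≠ 1) :
    jac χ d 1 * gaussSum (χ ^ d) ψ = gaussSum χ ψ ^ d := by
  have h0 : jac χ d 0 = 0 := by
    obtain ⟨u, hu⟩ := MulChar.ne_one_iff.1 hd
    have h1 := jac_mul χ d 0 (u : F) u.ne_zero
    rw [mul_zero] at h1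
    have h2 : (1 - (χ ^ d) (u : F)) * jac χ d 0 = 0 := by linear_combination h1
    rcases mul_eq_zero.1 h2 with h | h
    · exact absurd (sub_eq_zero.1 h).symm hu
    · exact h
  have h1 : ∀ t : F, jac χ d t = (χ ^ d) t * jac χ d 1 := by
    intro t
    by_cases ht : t = 0
    · rw [ht, h0, MulChar.map_zero, zero_mul]
    · have := jac_mul χ d 1 t ht
      rwa [mul_one] at this
  have h2 : gaussSum χ ψ ^ d = ∑ w : Fin d → F, ∏ i, (χ (w i) * ψ (w i)) := by
    unfold gaussSum
    rw [← Fin.prod_const, prod_univ_sum, Fintype.piFinset_univ]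
  have h3 : ∀ w : Fin d → F, ∏ i, (χ (w i) * ψ (w i)) = (∏ i, χ (w i)) * ψ (∑ i, w i) := by
    intro w
    rw [prod_mul_distrib, add_sum]
  rw [h2, sum_congr rfl fun w _ => h3 w]
  have h4 : ∑ w : Fin d → F, (∏ i, χ (w i)) * ψ (∑ i, w i) = ∑ t : F, ψ t * jac χ d t := by
    unfold jac
    rw [← sum_fiberwise univ (fun w : Fin d → F => ∑ i, w i)]
    refine sum_congr rfl fun t _ => ?_
    rw [mul_sum]
    refine sum_congr rfl fun w hw => ?_
    rw [mem_filter] at hw
    rw [hw.2, mul_comm]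
  rw [h4, gaussSum, mul_sum]
  refine sum_congr rfl fun t _ => ?_
  rw [h1 t]
  ring

/-- the denominators in the interpolation formula -/
def DD {d : ℕ} (r : Fin d → F) (i : Fin d) : F := ∏ j ∈ univ.erase i, (r i - r j)

lemma DD_ne {d : ℕ} {r : Fin d → F} (hr : Function.Injective r) (i : Fin d) : DD r i ≠ 0 := by
  unfold DD
  rw [prod_ne_zero_iff]
  intro j hj
  rw [mem_erase] at hj
  exact sub_ne_zero.2 (fun h => hj.1 (hr h).symm)

lemma interp_sum {d : ℕ} {r : Fin d → F} (hr : Function.Injective r) (hd : 1 ≤ d) {h : F[X]}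
    (hh : h.degree < d) : h.coeff (d - 1) = ∑ i, h.eval (r i) / DD r i := by
  have h1 := Lagrange.coeff_eq_sum (s := (univ : Finset (Fin d))) (v := r) (hr.injOn)
    (P := h) (by rw [card_univ, Fintype.card_fin]; exact hh)
  rw [card_univ, Fintype.card_fin] at h1
  exact h1

lemma lam_split (χ : MulChar F ℂ) {d : ℕ} (r : Fin d → F) (hd : 1 ≤ d) {h : F[X]}
    (hh : h ∈ Mon F (d - 1)) :
    lamPR χ (∏ i, (X - C (r i))) 1 h = ∏ i, χ (h.eval (r i)) := by
  rw [mem_Mon] at hh
  unfold lamPR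
  have e1 : resultant h (1 : F[X]) h.natDegree (1 : F[X]).natDegree = 1 := by
    rw [natDegree_one, resultant_zero_right_deg]
    simp
  rw [e1, map_one, map_one, mul_one]
  have e2 := resultant_prod_right (univ : Finset (Fin d)) h (fun i => X - C (r i)) h.natDegree
    le_rfl (by simp)
  rw [e2]
  have e3 : ∀ i : Fin d, resultant h (X - C (r i)) h.natDegree (X - C (r i)).natDegree =
      (-1) ^ (d - 1) * h.eval (r i) := by
    intro i
    rw [natDegree_X_sub_C, resultant_X_sub_C_right h _ _ le_rfl, hh.2]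
  rw [prod_congr rfl fun i _ => e3 i, prod_mul_distrib, prod_const, card_univ, Fintype.card_fin,
    ← pow_mul]
  have e4 : Even ((d - 1) * d) := by
    obtain ⟨k, rfl⟩ : ∃ k, d = k + 1 := ⟨d - 1, by omega⟩
    exact Nat.even_mul_succ_self k
  rw [e4.neg_one_pow, one_mul, map_prod]

/-- **The last coefficient.** -/
theorem sum_top (χ : MulChar F ℂ) {d : ℕ} (r : Fin d → F) (hr : Function.Injective r)
    (hd : 1 ≤ d) :
    AL (lamPR χ (∏ i, (X - C (r i))) 1) (d - 1) = χ (∏ i, DD r i) * jac χ d 1 := by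
  unfold AL jac
  rw [mul_sum]
  refine sum_bij' (fun h _ => fun i => h.eval (r i) / DD r i)
    (fun w _ => Lagrange.interpolate univ r (fun i => w i * DD r i)) ?_ ?_ ?_ ?_ ?_
  · intro h hh
    rw [mem_Mon] at hh
    rw [mem_filter]
    refine ⟨mem_univ _, ?_⟩
    have h1 : h.degree < d := by
      rw [degree_eq_natDegree hh.1.ne_zero, hh.2]
      exact_mod_cast (by omega : d - 1 < d)
    rw [← interp_sum hr hd h1, ← hh.2]
    exact hh.1
  · intro w hw
    rw [mem_filter] at hw
    set h := Lagrange.interpolate univ r (fun i => w i * DD r i) with hh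
    have h1 : h.degree < d := by
      have := Lagrange.degree_interpolate_lt (s := (univ : Finset (Fin d))) (v := r)
        (fun i => w i * DD r i) hr.injOn
      rwa [card_univ, Fintype.card_fin] at this
    have h2 := interp_sum hr hd h1
    have h3 : ∀ i, h.eval (r i) / DD r i = w i := by
      intro i
      rw [hh, Lagrange.eval_interpolate_at_node _ hr.injOn (mem_univ i)]
      exact mul_div_cancel_right₀ _ (DD_ne hr i)
    rw [sum_congr rfl fun i _ => h3 i, hw.2] at h2
    have h4 : h.natDegree = d - 1 := by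
      apply le_antisymm
      · have h5 : h ≠ 0 := by
          intro h5
          rw [h5, coeff_zero] at h2
          exact zero_ne_one h2
        rw [degree_eq_natDegree h5] at h1
        have : h.natDegree < d := by exact_mod_cast h1
        omega
      · apply le_natDegree_of_ne_zero
        rw [h2]
        exact one_ne_zero
    rw [mem_Mon]
    refine ⟨?_, h4⟩
    rw [Monic, leadingCoeff, h4, h2]
  · intro h hh
    have hh' := mem_Mon.1 hh
    have h1 : h.degree < (univ : Finset (Fin d)).card := by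
      rw [card_univ, Fintype.card_fin, degree_eq_natDegree hh'.1.ne_zero, hh'.2]
      exact_mod_cast (by omega : d - 1 < d)
    have h2 := Lagrange.eq_interpolate (s := (univ : Finset (Fin d))) (v := r) hr.injOn h1
    conv_rhs => rw [h2]
    congr 1
    funext i
    exact div_mul_cancel₀ _ (DD_ne hr i)
  · intro w hw
    funext i
    rw [Lagrange.eval_interpolate_at_node _ hr.injOn (mem_univ i)]
    exact mul_div_cancel_right₀ _ (DD_ne hr i)
  · intro h hh
    rw [lam_split χ r hd hh, map_prod, ← prod_mul_distrib]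
    refine prod_congr rfl fun i _ => ?_
    rw [← map_mul, mul_div_cancel₀ _ (DD_ne hr i)]

/-- invariance under the Frobenius -/
theorem gauss_frob {p : ℕ} [Fact p.Prime] [CharP F p] {ψ : AddChar F ℂ} (hψ : ∀ y, ψ (y ^ p) = ψ y)
    (χ : MulChar F ℂ) : gaussSum (χ ^ p) ψ = gaussSum χ ψ := by
  have hb : Function.Bijective (frobenius F p) := by
    rw [Fintype.bijective_iff_injective_and_card]
    exact ⟨frobenius_inj F p, rfl⟩
  unfold gaussSum
  rw [← hb.sum_comp (fun x => χ x * ψ x)]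
  refine sum_congr rfl fun x _ => ?_
  rw [frobenius_def, hψ, map_pow, MulChar.pow_apply' χ (Nat.Prime.ne_zero Fact.out)]

theorem gauss_frob_iter {p : ℕ} [Fact p.Prime] [CharP F p] {ψ : AddChar F ℂ}
    (hψ : ∀ y, ψ (y ^ p) = ψ y) (χ : MulChar F ℂ) (k : ℕ) :
    gaussSum (χ ^ (p ^ k)) ψ = gaussSum χ ψ := by
  induction k with
  | zero => rw [pow_zero, pow_one]
  | succ k ih => rw [pow_succ, pow_mul, gauss_frob hψ, ih]

/-- the product of the Gauss sums of `χ` and `χ⁻¹` -/
theorem gauss_inv {ψ : AddChar F ℂ} (hψ : ψ.IsPrimitive) {χ : MulChar F ℂ} (hχ : χ ≠ 1) :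
    (gaussSum χ ψ * gaussSum χ⁻¹ ψ) ^ 2 = (Fintype.card F : ℂ) ^ 2 := by
  have h1 := gaussSum_mul_gaussSum_eq_card hχ hψ
  have h2 : gaussSum χ⁻¹ ψ⁻¹ = χ⁻¹ (-1) * gaussSum χ⁻¹ ψ := by
    unfold gaussSum
    rw [mul_sum, ← Equiv.sum_comp (Equiv.neg F)]
    refine sum_congr rfl fun x _ => ?_
    rw [Equiv.neg_apply, AddChar.inv_apply, neg_neg, ← neg_one_mul, map_mul]
    ring
  have h3 : χ⁻¹ (-1) ^ 2 = 1 := by
    rw [← map_pow, neg_one_sq, map_one]
  rw [h2] at h1
  rw [← h1]
  linear_combination (- (gaussSum χ ψ * gaussSum χ⁻¹ ψ) ^ 2) * h3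

theorem gauss_ne_zero {ψ : AddChar F ℂ} (hψ : ψ.IsPrimitive) {χ : MulChar F ℂ} (hχ : χ ≠ 1) :
    gaussSum χ ψ ≠ 0 := by
  intro h
  have := gauss_inv hψ hχ
  rw [h, zero_mul, zero_pow two_ne_zero] at this
  exact pow_ne_zero _ (by exact_mod_cast Fintype.card_ne_zero) this.symm

/-- the absolute value of Gauss sums -/
theorem gauss_norm {ψ : AddChar F ℂ} (hψ : ψ.IsPrimitive) {χ : MulChar F ℂ} (hχ : χ ≠ 1) :
    ‖gaussSum χ ψ‖ = Real.sqrt (Fintype.card F) := by
  have h1 := gaussSum_mul_gaussSum_eq_card hχ hψ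
  have h2 : gaussSum χ⁻¹ ψ⁻¹ = (starRingEnd ℂ) (gaussSum χ ψ) := by
    unfold gaussSum
    rw [map_sum]
    refine sum_congr rfl fun x _ => ?_
    rw [map_mul]
    congr 1
    · rw [starRingEnd_apply, MulChar.star_apply' (R := F)]
    · rw [← AddChar.map_neg_eq_conj, AddChar.inv_apply]
  rw [h2, Complex.mul_conj] at h1
  have h3 : (Complex.normSq (gaussSum χ ψ) : ℝ) = Fintype.card F := by exact_mod_cast h1
  rw [Complex.normSq_eq_norm_sq] at h3
  rw [← h3, Real.sqrt_sq (norm_nonneg _)]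

end

end Pool.Agent.L5helper29.SE
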