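import Pool.Agent.L5helper29.SE.Gauss
import Pool.Agent.L5helper29.AS.Frob

/-!
# The `L`-polynomial of `χ (f x)` and the eigenvalues of the Frobenius
-/

set_option autoImplicit false
set_option linter.all false

namespace Pool.Agent.L5helper29.SE

open Polynomial Finset
open Pool.Agent.H341R2.Sharp Pool.Agent.H435R3.Weil Pool.Agent.H498R2.Kl
open Pool.Agent.L5helper29.AS (PA PA_coeff_zero PA_top PA_roots HID_PA HID_unique HID_S)

/-- `A` is the multiset of eigenvalues of the Frobenius of `F` on the first compactly supported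
cohomology of the affine line with coefficients in the Kummer sheaf of `χ (f x)`. -/
def IsFrobM {F : Type} [Field F] [Fintype F] (χ : MulChar F ℂ) (f : F[X]) (A : Multiset ℂ) :
    Prop :=
  (0 : ℂ) ∉ A ∧ ∀ (E : Type) [Field E] [Fintype E] [Algebra F E],
    ∑ x : E, χ (Algebra.norm F (aeval x f)) = - (A.map (fun α => α ^ Module.finrank F E)).sum

/-- existence of a multiset with a given polynomial -/
lemma exists_PA {L : ℂ[X]} (hL0 : L.coeff 0 = 1) : ∃ A : Multiset ℂ, (0 : ℂ) ∉ A ∧ PA A = L := by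
  have hne : L ≠ 0 := by
    intro h
    rw [h, coeff_zero] at hL0
    exact zero_ne_one hL0
  have hr0 : ∀ z ∈ L.roots, z ≠ 0 := by
    rintro z hz rfl
    rw [mem_roots hne, IsRoot.def, ← coeff_zero_eq_eval_zero, hL0] at hz
    exact one_ne_zero hz
  refine ⟨L.roots.map (fun z => z⁻¹), ?_, ?_⟩
  · intro h
    rw [Multiset.mem_map] at h
    obtain ⟨z, hz, h⟩ := h
    exact hr0 z hz (inv_eq_zero.1 h)
  · have h1 := (IsAlgClosed.splits L).eq_prod_roots
    have h2 : (L.roots.map (fun z => X - C z)).prod =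
        C (L.roots.map (fun z => -z)).prod * PA (L.roots.map (fun z => z⁻¹)) := by
      unfold PA
      rw [Multiset.map_map, ← Multiset.prod_hom _ C, Multiset.map_map, ← Multiset.prod_map_mul]
      congr 1
      apply Multiset.map_congr rfl
      intro z hz
      simp only [Function.comp]
      have hz0 := hr0 z hz
      rw [mul_sub, mul_one, ← mul_assoc, ← C_mul, neg_mul, mul_inv_cancel₀ hz0, C_neg, C_neg, C_1]
      ring
    rw [h2, ← mul_assoc, ← C_mul] at h1
    have h3 : L.leadingCoeff * (L.roots.map (fun z => -z)).prod = 1 := by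
      have := congrArg (fun g : ℂ[X] => g.coeff 0) h1
      simp only [coeff_C_mul, PA_coeff_zero, mul_one, hL0] at this
      exact this.symm
    rw [h3, C_1, one_mul] at h1
    exact h1.symm

lemma PA_inj {A B : Multiset ℂ} (hA : (0 : ℂ) ∉ A) (hB : (0 : ℂ) ∉ B) (h : PA A = PA B) :
    A = B := by
  have h1 := PA_roots hA
  rw [h, PA_roots hB] at h1
  have h2 := congrArg (Multiset.map (fun z : ℂ => z⁻¹)) h1
  rw [Multiset.map_map, Multiset.map_map] at h2
  simpa using h2.symm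

/-- a multiset of nonzero numbers is determined by its power sums -/
lemma unique_of_sums {A B : Multiset ℂ} (hA : (0 : ℂ) ∉ A) (hB : (0 : ℂ) ∉ B)
    (h : ∀ m, 1 ≤ m → (A.map (fun α => α ^ m)).sum = (B.map (fun α => α ^ m)).sum) : A = B := by
  refine PA_inj hA hB (HID_unique (HID_PA A) (HID_PA B) (PA_coeff_zero A) (PA_coeff_zero B) ?_)
  intro m hm
  rw [h m hm]

section

variable {F : Type} [Field F] [Fintype F]

/-- an extension of given degree -/
lemma exists_ext (m : ℕ) (hm : 1 ≤ m) : ∃ (E : Type) (_ : Field E) (_ : Fintype E)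
    (_ : Algebra F E), Module.finrank F E = m := by
  classical
  obtain ⟨p, hp⟩ := CharP.exists F
  have : Fact (Nat.Prime p) := ⟨CharP.char_is_prime F p⟩
  have : NeZero m := ⟨by omega⟩
  let E := FiniteField.Extension F p m
  let _ : Fintype E := Fintype.ofFinite E
  have hfr : Module.finrank F E = m := FiniteField.finrank_extension F p m
  exact ⟨E, inferInstance, inferInstance, inferInstance, hfr⟩

theorem frobM_unique {χ : MulChar F ℂ} {f : F[X]} {A B : Multiset ℂ} (hA : IsFrobM χ f A)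
    (hB : IsFrobM χ f B) : A = B := by
  refine unique_of_sums hA.1 hB.1 ?_
  intro m hm
  obtain ⟨E, i1, i2, i3, hE⟩ := exists_ext (F := F) m hm
  have h1 := hA.2 E
  have h2 := hB.2 E
  rw [hE] at h1 h2
  rw [h1] at h2
  exact neg_injective h2

/-- multiplication of `f` by a constant -/
theorem frobM_scale {χ : MulChar F ℂ} {f : F[X]} {A : Multiset ℂ} (hA : IsFrobM χ f A) (a : F)
    (ha : a ≠ 0) : IsFrobM χ (C a * f) (A.map (fun α => χ a * α)) := by
  have hχ : χ a ≠ 0 := ((isUnit_iff_ne_zero.2 ha).map χ).ne_zero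
  constructor
  · intro h
    rw [Multiset.mem_map] at h
    obtain ⟨α, hα, h⟩ := h
    rcases mul_eq_zero.1 h with h | h
    · exact hχ h
    · exact hA.1 (h ▸ hα)
  · intro E _ _ _
    have h1 : ∀ x : E, χ (Algebra.norm F (aeval x (C a * f))) =
        χ a ^ Module.finrank F E * χ (Algebra.norm F (aeval x f)) := by
      intro x
      rw [map_mul, aeval_C, map_mul, map_mul, Algebra.norm_algebraMap, map_pow]
    rw [sum_congr rfl fun x _ => h1 x, ← mul_sum, hA.2 E, Multiset.map_map, mul_neg,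
      ← Multiset.sum_map_mul_left]
    congr 3
    funext α
    simp [mul_pow]

end

section

variable {F : Type} [Field F] [Fintype F] [DecidableEq F]

/-- the `L`-polynomial -/
noncomputable def LPm (χ : MulChar F ℂ) (P : F[X]) : ℂ[X] :=
  ∑ n ∈ range P.natDegree, C (AL (lamPR χ P 1) n) * X ^ n

lemma card_two {χ : MulChar F ℂ} (hχ : χ ≠ 1) : 2 ≤ Fintype.card F - 1 := by
  obtain ⟨u, hu⟩ := MulChar.ne_one_iff.1 hχ
  have h1 : u ≠ 1 := by
    rintro rfl
    exact hu (by simp)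
  have h2 : Fintype.card Fˣ = Fintype.card F - 1 := Fintype.card_units F
  rw [← h2]
  exact Fintype.one_lt_card_iff.2 ⟨u, 1, h1⟩

lemma pow_card_char (χ : MulChar F ℂ) : χ ^ (Fintype.card F - 1) = 1 := by
  ext u
  rw [MulChar.pow_apply_coe, MulChar.one_apply_coe, ← map_pow, FiniteField.pow_card_sub_one_eq_one _
    u.ne_zero, map_one]

variable {χ : MulChar F ℂ} {P : F[X]}

lemma exists_fac (hsq : Squarefree P) (hdeg : 1 ≤ P.natDegree) :
    ∃ Q : F[X], Irreducible Q ∧ Q ∣ P ∧ ¬ Q ^ 2 ∣ P := by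
  have h1 : ¬ IsUnit P := by
    intro h
    have := natDegree_eq_zero_of_isUnit h
    omega
  obtain ⟨Q, hQ, hQP⟩ := WfDvdMonoid.exists_irreducible_factor h1 (by
    rintro rfl
    simp at hdeg)
  refine ⟨Q, hQ, hQP, fun h => ?_⟩
  rw [pow_two] at h
  exact hQ.not_isUnit (hsq Q h)

lemma AL_van (hχ : χ ≠ 1) (hP : P.Monic) (hsq : Squarefree P) (hdeg : 1 ≤ P.natDegree) (n : ℕ)
    (hn : P.natDegree ≤ n) : AL (lamPR χ P 1) n = 0 := by
  obtain ⟨Q, hQ, hQP, hQ2⟩ := exists_fac hsq hdeg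
  obtain ⟨r, hr, hev, hr0, hr1⟩ := Pool.Agent.R318.PR.exists_r2 (Fintype.card F - 1)
    (card_two hχ) dvd_rfl χ hχ (pow_card_char χ) P Q hP hQ hQP hQ2
  exact AL_eq_zero χ P 1 r hP monic_one hr hev hr0 hr1 n (by simpa using hn)

lemma LPm_coeff (hχ : χ ≠ 1) (hP : P.Monic) (hsq : Squarefree P) (hdeg : 1 ≤ P.natDegree) (n : ℕ) :
    (LPm χ P).coeff n = AL (lamPR χ P 1) n := by
  unfold LPm
  rw [finsetSum_coeff]
  simp_rw [coeff_C_mul_X_pow]
  by_cases hn : n < P.natDegree
  · rw [sum_eq_single n]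
    · simp
    · intro m _ hm
      rw [if_neg (Ne.symm hm)]
    · intro h
      exact absurd (mem_range.2 hn) h
  · rw [AL_van hχ hP hsq hdeg n (by omega)]
    rw [sum_eq_zero]
    intro m hm
    rw [mem_range] at hm
    rw [if_neg (by omega)]

lemma LPm_zero (hχ : χ ≠ 1) (hP : P.Monic) (hsq : Squarefree P) (hdeg : 1 ≤ P.natDegree) :
    (LPm χ P).coeff 0 = 1 := by
  rw [LPm_coeff hχ hP hsq hdeg, AL_zero _ (lamPR_one χ P 1)]

lemma LPm_HID (hχ : χ ≠ 1) (hP : P.Monic) (hsq : Squarefree P) (hdeg : 1 ≤ P.natDegree) :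
    HID (LPm χ P) (TL (lamPR χ P 1)) := by
  intro n
  have := n_mul_AL (lamPR χ P 1) (lamPR_one χ P 1)
    (fun g h hg hh => lamPR_mul χ P 1 g h hg hh) n
  simp_rw [LPm_coeff hχ hP hsq hdeg]
  exact this

lemma LPm_root (hχ : χ ≠ 1) (hP : P.Monic) (hsq : Squarefree P) (hdeg : 1 ≤ P.natDegree) (z : ℂ)
    (hz : (LPm χ P).eval z = 0) : 1 ≤ Real.sqrt (Fintype.card F) * ‖z‖ := by
  obtain ⟨Q, hQ, hQP, hQ2⟩ := exists_fac hsq hdeg
  obtain ⟨K, hK, hb⟩ := Pool.Agent.R318.PR.T_bound2 (Fintype.card F - 1)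
    (card_two hχ) dvd_rfl χ hχ (pow_card_char χ) P Q hP hQ hQP hQ2
  exact Pool.Agent.R318.PR.root_norm_k Q.natDegree hQ.natDegree_pos (LPm χ P)
    (LPm_zero hχ hP hsq hdeg) (TL (lamPR χ P 1)) _ K
    (Real.sqrt_pos.2 (by exact_mod_cast Fintype.card_pos)) hK (fun m hm hk => (hb m hm hk).1)
    (LPm_HID hχ hP hsq hdeg) z hz

lemma TL_sum (χ : MulChar F ℂ) (P : F[X]) (E : Type) [Field E] [Fintype E] [DecidableEq E]
    [Algebra F E] :
    TL (lamPR χ P 1) (Module.finrank F E) = ∑ x : E, χ (Algebra.norm F (aeval x P)) := by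
  rw [TL_char]
  refine sum_congr rfl fun x _ => ?_
  rw [map_one, map_one, map_one, map_one, mul_one]

/-- the characterization by the `L`-polynomial -/
theorem frobM_iff (hχ : χ ≠ 1) (hP : P.Monic) (hsq : Squarefree P) (hdeg : 1 ≤ P.natDegree)
    (A : Multiset ℂ) : IsFrobM χ P A ↔ (0 : ℂ) ∉ A ∧ PA A = LPm χ P := by
  classical
  constructor
  · intro hA
    refine ⟨hA.1, HID_unique (HID_PA A) (LPm_HID hχ hP hsq hdeg) (PA_coeff_zero A)
      (LPm_zero hχ hP hsq hdeg) ?_⟩
    intro m hm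
    obtain ⟨E, i1, i2, i3, hE⟩ := exists_ext (F := F) m hm
    have h1 := hA.2 E
    rw [← TL_sum, hE] at h1
    exact h1.symm
  · rintro ⟨h0, h1⟩
    refine ⟨h0, ?_⟩
    intro E _ _ _
    haveI : Module.Finite F E := Module.Finite.of_finite
    rw [← TL_sum]
    have h2 := HID_PA A
    rw [h1] at h2
    exact HID_S (LPm_HID hχ hP hsq hdeg) h2 (LPm_zero hχ hP hsq hdeg) _ Module.finrank_pos

/-- existence -/
theorem frobM_exists (hχ : χ ≠ 1) {f : F[X]} (hsq : Squarefree f) (hdeg : 1 ≤ f.natDegree) :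
    ∃ A : Multiset ℂ, IsFrobM χ f A := by
  have hf0 : f ≠ 0 := by
    rintro rfl
    simp at hdeg
  have ha : f.leadingCoeff ≠ 0 := leadingCoeff_ne_zero.2 hf0
  set P := C f.leadingCoeff⁻¹ * f with hPdef
  have hP : P.Monic := by
    rw [hPdef, mul_comm]
    exact monic_mul_leadingCoeff_inv hf0
  have hfP : f = C f.leadingCoeff * P := by
    rw [hPdef, ← mul_assoc, ← C_mul, mul_inv_cancel₀ ha, C_1, one_mul]
  have hPd : P.natDegree = f.natDegree := by
    rw [hPdef, natDegree_C_mul (inv_ne_zero ha)]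
  have hPs : Squarefree P := by
    refine hsq.squarefree_of_dvd ?_
    exact ⟨C f.leadingCoeff, by rw [mul_comm]; exact hfP⟩
  obtain ⟨A, h0, hA⟩ := exists_PA (LPm_zero hχ hP hPs (by omega))
  have h1 := (frobM_iff hχ hP hPs (by omega) A).2 ⟨h0, hA⟩
  have h2 := frobM_scale h1 f.leadingCoeff ha
  rw [← hfP] at h2
  exact ⟨_, h2⟩

end

end Pool.Agent.L5helper29.SE
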