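import Pool.Agent.H916R2.Indep

/-!
# The linear relations between the Stickelberger sums
-/

set_option autoImplicit false
set_option linter.all false

namespace Pool.Agent.L5helper29.SE

open Finset Pool.Agent.H916R2

/-- the odd part of the Stickelberger sum -/
def WW (ℓ p f : ℕ) (y : ZMod ℓ) : ℤ := ∑ s ∈ range f, saw (y * (p : ZMod ℓ) ^ s)

/-- the odd multiplicity function of the class of `a` modulo the powers of `p` -/
def cc (ℓ p f : ℕ) (a x : ZMod ℓ) : ℤ :=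
  ∑ s ∈ range f, ((if a = x * (p : ZMod ℓ) ^ s then (1 : ℤ) else 0) -
    (if a = -(x * (p : ZMod ℓ) ^ s) then (1 : ℤ) else 0))

lemma SS_one_ne {ℓ : ℕ} [Fact ℓ.Prime] {ω : DirichletCharacter ℂ ℓ} (hω : ω.Odd) :
    SS ω 1 ≠ 0 := by
  obtain ⟨a, ha⟩ := exists_SS_ne_zero ω hω
  by_cases h0 : a = 0
  · exfalso
    apply ha
    unfold SS
    apply sum_eq_zero
    intro t _
    rw [h0, mul_zero, saw_zero]
    simp
  · intro h
    apply ha
    have := SS_unit ω (Units.mk0 a h0) 1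
    rw [Units.val_mk0, mul_one] at this
    rw [this, h, mul_zero]

/-- **The relations.** -/
theorem tau_zero {J : Type*} [Fintype J] {ℓ : ℕ} [Fact ℓ.Prime] {p f d : ℕ}
    (hpf : (p : ZMod ℓ) ^ f = 1) (hf : 0 < f) (hd : 2 ≤ d) (hdℓ : (d : ZMod ℓ) ≠ 0)
    (a : J → ZMod ℓ) (ha : ∀ j, a j ≠ 0) (t : J → ℤ)
    (h : ∀ u : (ZMod ℓ)ˣ, ∑ j, t j * ((d : ℤ) * WW ℓ p f (a j * u) - WW ℓ p f ((d : ZMod ℓ) * a j * u)) = 0)
    (x : ZMod ℓ) (hx : x ≠ 0) : ∑ j, t j * cc ℓ p f (a j) x = 0 := by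
  classical
  have hp0 : (p : ZMod ℓ) ≠ 0 := by
    intro h0
    rw [h0, zero_pow hf.ne'] at hpf
    exact zero_ne_one hpf
  -- odd characters trivial at `p`
  have key : ∀ ω : DirichletCharacter ℂ ℓ, ω.Odd → ω (p : ZMod ℓ) = 1 →
      ∑ j, (t j : ℂ) * ω (a j)⁻¹ = 0 := by
    intro ω hω hωp
    have hSS : ∀ y : ZMod ℓ, y ≠ 0 → SS ω y = ω y⁻¹ * SS ω 1 := by
      intro y hy
      have := SS_unit ω (Units.mk0 y hy) 1
      rw [Units.val_mk0, mul_one] at this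
      rw [this]
      congr 1
      have h1 : ω y * ω y⁻¹ = 1 := by
        rw [← map_mul, mul_inv_cancel₀ hy, map_one]
      exact (eq_inv_of_mul_eq_one_right h1).symm
    have hW : ∀ y : ZMod ℓ, y ≠ 0 →
        ∑ u : (ZMod ℓ)ˣ, ω u * ((WW ℓ p f (y * u) : ℤ) : ℂ) = f * (ω y⁻¹ * SS ω 1) := by
      intro y hy
      unfold WW
      push_cast
      simp_rw [mul_sum]
      rw [sum_comm]
      have h1 : ∀ s ∈ range f, ∑ u : (ZMod ℓ)ˣ,
          ω u * ((saw (y * (u : ZMod ℓ) * (p : ZMod ℓ) ^ s) : ℤ) : ℂ) = ω y⁻¹ * SS ω 1 := by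
        intro s _
        have h2 := hSS (y * (p : ZMod ℓ) ^ s) (mul_ne_zero hy (pow_ne_zero _ hp0))
        have h3 : ω (y * (p : ZMod ℓ) ^ s)⁻¹ = ω y⁻¹ := by
          have h4 : ω ((p : ZMod ℓ) ^ s)⁻¹ = 1 := by
            have h5 : ω ((p : ZMod ℓ) ^ s) * ω ((p : ZMod ℓ) ^ s)⁻¹ = 1 := by
              rw [← map_mul, mul_inv_cancel₀ (pow_ne_zero _ hp0), map_one]
            rwa [map_pow, hωp, one_pow, one_mul] at h5
          rw [mul_inv, map_mul, h4, mul_one]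
        rw [h3] at h2
        rw [← h2, SS]
        refine sum_congr rfl fun u _ => ?_
        congr 3
        ring
      rw [sum_congr rfl h1, sum_const, card_range, nsmul_eq_mul]
    have h1 : ∑ u : (ZMod ℓ)ˣ, ω u * ((∑ j, t j * ((d : ℤ) * WW ℓ p f (a j * u) -
        WW ℓ p f ((d : ZMod ℓ) * a j * u)) : ℤ) : ℂ) = 0 := by
      apply sum_eq_zero
      intro u _
      rw [h u]
      simp
    push_cast at h1
    simp_rw [mul_sum] at h1
    rw [sum_comm] at h1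
    have h2 : ∀ j, ∑ u : (ZMod ℓ)ˣ, ω u * ((t j : ℂ) * ((d : ℂ) * (WW ℓ p f (a j * u) : ℂ) -
        (WW ℓ p f ((d : ZMod ℓ) * a j * u) : ℂ))) =
        (t j : ℂ) * ω (a j)⁻¹ * (((d : ℂ) - ω (d : ZMod ℓ)⁻¹) * (f * SS ω 1)) := by
      intro j
      have e1 := hW (a j) (ha j)
      have e2 := hW ((d : ZMod ℓ) * a j) (mul_ne_zero hdℓ (ha j))
      rw [mul_inv, map_mul] at e2
      have e3 : ∑ u : (ZMod ℓ)ˣ, ω u * ((t j : ℂ) * ((d : ℂ) * (WW ℓ p f (a j * u) : ℂ) -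
        (WW ℓ p f ((d : ZMod ℓ) * a j * u) : ℂ))) =
        (t j : ℂ) * ((d : ℂ) * ∑ u : (ZMod ℓ)ˣ, ω u * (WW ℓ p f (a j * u) : ℂ) -
          ∑ u : (ZMod ℓ)ˣ, ω u * (WW ℓ p f ((d : ZMod ℓ) * a j * u) : ℂ)) := by
        rw [mul_sum, ← sum_sub_distrib, mul_sum]
        refine sum_congr rfl fun u _ => ?_
        ring
      rw [e3, e1, e2]
      ring
    rw [sum_congr rfl fun j _ => h2 j, ← sum_mul] at h1
    rcases mul_eq_zero.1 h1 with h3 | h3
    · exact h3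
    · exfalso
      have h4 : (d : ℂ) - ω (d : ZMod ℓ)⁻¹ ≠ 0 := by
        intro h5
        have h6 : ‖(d : ℂ)‖ = ‖ω (d : ZMod ℓ)⁻¹‖ := by rw [sub_eq_zero.1 h5]
        have h7 := ω.unit_norm_eq_one (Units.mk0 _ (inv_ne_zero hdℓ))
        rw [Units.val_mk0] at h7
        rw [h7, Complex.norm_natCast] at h6
        have : d = 1 := by exact_mod_cast h6
        omega
      exact mul_ne_zero h4 (mul_ne_zero (by exact_mod_cast hf.ne') (SS_one_ne hω)) h3
  -- Fourier inversion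
  have hφ : ((ℓ.totient : ℕ) : ℂ) ≠ 0 := by
    exact_mod_cast (Nat.totient_pos.2 (Fact.out : ℓ.Prime).pos).ne'
  have h1 : ∀ j, ((ℓ.totient : ℕ) : ℂ) * (cc ℓ p f (a j) x : ℂ) =
      ∑ ω : DirichletCharacter ℂ ℓ, ω (a j)⁻¹ *
        (ω x * (1 - ω (-1)) * ∑ s ∈ range f, ω (p : ZMod ℓ) ^ s) := by
    intro j
    have haj : IsUnit (a j) := isUnit_iff_ne_zero.2 (ha j)
    unfold cc
    push_cast
    rw [mul_sum]
    simp_rw [mul_sum]
    rw [sum_comm]
    refine sum_congr rfl fun s _ => ?_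
    have e1 := DirichletCharacter.sum_char_inv_mul_char_eq ℂ haj (x * (p : ZMod ℓ) ^ s)
    have e2 := DirichletCharacter.sum_char_inv_mul_char_eq ℂ haj (-(x * (p : ZMod ℓ) ^ s))
    have e3 : ((ℓ.totient : ℕ) : ℂ) * ((if a j = x * (p : ZMod ℓ) ^ s then (1 : ℂ) else 0) -
        (if a j = -(x * (p : ZMod ℓ) ^ s) then (1 : ℂ) else 0)) =
        (if a j = x * (p : ZMod ℓ) ^ s then ((ℓ.totient : ℕ) : ℂ) else 0) -
        (if a j = -(x * (p : ZMod ℓ) ^ s) then ((ℓ.totient : ℕ) : ℂ) else 0) := by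
      split_ifs <;> ring
    rw [e3, ← e1, ← e2, ← sum_sub_distrib]
    refine sum_congr rfl fun ω _ => ?_
    have e4 : ω (-(x * (p : ZMod ℓ) ^ s)) = ω (-1) * (ω x * ω (p : ZMod ℓ) ^ s) := by
      rw [neg_eq_neg_one_mul, map_mul, map_mul, map_pow]
    rw [e4, map_mul, map_pow]
    ring
  have h2 : ((ℓ.totient : ℕ) : ℂ) * ((∑ j, t j * cc ℓ p f (a j) x : ℤ) : ℂ) = 0 := by
    push_cast
    rw [mul_sum]
    have e1 : ∀ j, ((ℓ.totient : ℕ) : ℂ) * ((t j : ℂ) * (cc ℓ p f (a j) x : ℂ)) =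
        ∑ ω : DirichletCharacter ℂ ℓ, (ω x * (1 - ω (-1)) * ∑ s ∈ range f, ω (p : ZMod ℓ) ^ s) *
          ((t j : ℂ) * ω (a j)⁻¹) := by
      intro j
      have : ((ℓ.totient : ℕ) : ℂ) * ((t j : ℂ) * (cc ℓ p f (a j) x : ℂ)) =
        (t j : ℂ) * (((ℓ.totient : ℕ) : ℂ) * (cc ℓ p f (a j) x : ℂ)) := by ring
      rw [this, h1 j, mul_sum]
      refine sum_congr rfl fun ω _ => ?_
      ring
    rw [sum_congr rfl fun j _ => e1 j, sum_comm]
    apply sum_eq_zero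
    intro ω _
    rw [← mul_sum]
    rcases ω.even_or_odd with he | ho
    · have : ω (-1) = 1 := he
      rw [this, sub_self, mul_zero, zero_mul, zero_mul]
    · by_cases hωp : ω (p : ZMod ℓ) = 1
      · rw [key ω ho hωp, mul_zero]
      · have h3 : ∑ s ∈ range f, ω (p : ZMod ℓ) ^ s = 0 := by
          have h4 := geom_sum_mul (ω (p : ZMod ℓ)) f
          rw [← map_pow, hpf, map_one, sub_self] at h4
          rcases mul_eq_zero.1 h4 with h5 | h5
          · exact h5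
          · exact absurd (sub_eq_zero.1 h5) hωp
        rw [h3, mul_zero, zero_mul]
  rcases mul_eq_zero.1 h2 with h3 | h3
  · exact absurd h3 hφ
  · exact_mod_cast h3

end Pool.Agent.L5helper29.SE
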