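import Pool.Agent.L5helper29.SE.Stick2
import Pool.Agent.L5helper29.SE.Stick3

/-!
# Multiplicative relations between quotients of Gauss sums
-/

set_option autoImplicit false
set_option linter.all false

namespace Pool.Agent.L5helper29.SE

open Finset Pool.Agent.W528.HB Pool.Agent.H916R2

variable {p : ℕ} [Fact p.Prime]

lemma norm_p_pos : 0 < ‖((p : ℕ) : PadicAlgCl p)‖ := by
  rw [norm_pos_iff]
  have h6 : ((p : ℚ_[p])) ≠ 0 := by exact_mod_cast (Fact.out : p.Prime).ne_zero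
  intro h
  apply h6
  have h2 : algebraMap ℚ_[p] (PadicAlgCl p) (p : ℚ_[p]) = algebraMap ℚ_[p] (PadicAlgCl p) 0 := by
    rw [map_natCast, map_zero]; exact h
  exact (algebraMap ℚ_[p] (PadicAlgCl p)).injective h2

lemma two_Sd {ℓ f : ℕ} [Fact ℓ.Prime] (hp : ¬ ℓ ∣ p) {b : ℕ} (hb : ¬ ℓ ∣ b) :
    2 * (Sd ℓ p f b : ℤ) = WW ℓ p f (b : ZMod ℓ) + ℓ * f := by
  unfold Sd WW
  push_cast
  rw [mul_sum]
  have h1 : ∀ s ∈ range f, saw ((b : ZMod ℓ) * (p : ZMod ℓ) ^ s) =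
      2 * (((b : ℤ) * (p : ℤ) ^ s) % (ℓ : ℤ)) - ℓ := by
    intro s _
    have h2 : ¬ ℓ ∣ b * p ^ s := by
      intro h3
      rcases (Nat.Prime.dvd_mul Fact.out).1 h3 with h4 | h4
      · exact hb h4
      · exact hp ((Fact.out : ℓ.Prime).dvd_of_dvd_pow h4)
    have h3 : (b : ZMod ℓ) * (p : ZMod ℓ) ^ s = ((b * p ^ s : ℕ) : ZMod ℓ) := by push_cast; rfl
    unfold saw
    rw [h3, if_neg (by rwa [ZMod.natCast_eq_zero_iff]), ZMod.val_natCast]
    push_cast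
    rfl
  rw [sum_congr rfl h1, sum_sub_distrib, sum_const, card_range, nsmul_eq_mul]
  ring

lemma WW_neg {ℓ f : ℕ} [Fact ℓ.Prime] (y : ZMod ℓ) : WW ℓ p f (-y) = - WW ℓ p f y := by
  unfold WW
  rw [← sum_neg_distrib]
  refine sum_congr rfl fun s _ => ?_
  rw [neg_mul, saw_neg]

/-- **From a multiplicative to a linear relation.** -/
theorem rel_tau {E : Type} [Field E] [Fintype E] [CharP E p] {f ℓ d : ℕ} [Fact ℓ.Prime]
    (hf : Fintype.card E = p ^ f) (hdvd : ℓ ∣ Fintype.card E - 1) {χ : MulChar E ℂ}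
    (hχ : χ ^ ℓ = 1) (hχ1 : χ ≠ 1) {ψ : AddChar E ℂ} (hψ : IsTrC p E ψ) (hd : 2 ≤ d)
    (hdℓ : ¬ ℓ ∣ d) {J : Type*} [Fintype J] (a : J → ℕ) (ha : ∀ j, ¬ ℓ ∣ a j) (t : J → ℤ) (N : ℕ)
    (hN : 0 < N) (k : ℤ)
    (h : ∏ j, ((gaussSum (χ ^ a j) ψ ^ d / gaussSum ((χ ^ a j) ^ d) ψ) ^ (2 * ℓ)) ^ (t j * N) =
      (Fintype.card E : ℂ) ^ k) (x : ZMod ℓ) (hx : x ≠ 0) :
    ∑ j, t j * cc ℓ p f (a j : ZMod ℓ) x = 0 := by
  classical
  have hℓ : ℓ.Prime := Fact.out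
  have hQ : 1 < Fintype.card E := Fintype.one_lt_card
  have hf0 : 0 < f := by
    rcases Nat.eq_zero_or_pos f with h | h
    · rw [h, pow_zero] at hf; omega
    · exact h
  have hp0 : ¬ ℓ ∣ p := by
    intro h
    have h1 : ℓ ∣ Fintype.card E := by
      rw [hf]
      exact dvd_pow h hf0.ne'
    have h2 : ℓ ∣ 1 := by
      have := (Nat.dvd_sub h1 hdvd)
      have h3 : Fintype.card E - (Fintype.card E - 1) = 1 := by omega
      rwa [h3] at this
    exact hℓ.one_lt.ne' (Nat.dvd_one.1 h2)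
  have hpf : (p : ZMod ℓ) ^ f = 1 := by
    have h1 : ((Fintype.card E - 1 : ℕ) : ZMod ℓ) = 0 := (ZMod.natCast_eq_zero_iff _ _).2 hdvd
    rw [Nat.cast_sub hQ.le, hf] at h1
    push_cast at h1
    exact sub_eq_zero.1 h1
  set P : ℝ := ‖((p : ℕ) : PadicAlgCl p)‖ with hP
  have hP0 : 0 < P := norm_p_pos
  have hP1 : P < 1 := by
    rw [hP]
    exact Pool.Agent.H936R2.norm_p_lt_one p
  -- the relation for every unit
  have key : ∀ u : ℕ, ¬ ℓ ∣ u → ∑ j, t j * N * (2 * d * (Sd ℓ p f (a j * u) : ℤ) -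
      2 * (Sd ℓ p f (a j * d * u) : ℤ)) = f * k := by
    intro u hu
    obtain ⟨ν, hν⟩ := norm_emb (p := p) hℓ hf hdvd hχ hχ1 hψ u hu
    have h1 := congrArg (fun z => ‖ν z‖) h
    simp only [map_prod, map_zpow₀, map_natCast, norm_prod, norm_zpow] at h1
    have h2 : ∀ j, ‖ν ((gaussSum (χ ^ a j) ψ ^ d / gaussSum ((χ ^ a j) ^ d) ψ) ^ (2 * ℓ))‖ =
        P ^ (2 * d * (Sd ℓ p f (a j * u) : ℤ) - 2 * (Sd ℓ p f (a j * d * u) : ℤ)) := by
      intro j
      have e1 := hν (a j) (ha j)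
      have e2 := hν (a j * d) (fun h => by
        rcases hℓ.dvd_mul.1 h with h | h
        · exact ha j h
        · exact hdℓ h)
      rw [← pow_mul, map_pow, map_div₀, map_pow, norm_pow, norm_div, norm_pow, div_pow, ← pow_mul]
      have e3 : ‖ν (gaussSum (χ ^ a j) ψ)‖ ^ (d * (2 * ℓ)) = P ^ (2 * d * (Sd ℓ p f (a j * u) : ℤ)) := by
        rw [show d * (2 * ℓ) = ℓ * (2 * d) by ring, pow_mul, e1, ← pow_mul, ← zpow_natCast]
        congr 1
        push_cast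
        ring
      have e4 : ‖ν (gaussSum (χ ^ (a j * d)) ψ)‖ ^ (2 * ℓ) = P ^ (2 * (Sd ℓ p f (a j * d * u) : ℤ)) := by
        rw [mul_comm 2 ℓ, pow_mul, e2, ← pow_mul, ← zpow_natCast]
        congr 1
        push_cast
        ring
      rw [e3, e4, ← zpow_sub₀ hP0.ne']
    rw [prod_congr rfl fun j _ => by rw [h2 j]] at h1
    rw [prod_congr rfl fun j _ => (zpow_mul P _ _).symm] at h1
    have h3 : ∀ g : J → ℤ, ∏ j, P ^ (g j) = P ^ (∑ j, g j) := by
      intro g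
      induction (univ : Finset J) using Finset.induction_on with
      | empty => simp
      | insert i s hi ih => rw [prod_insert hi, sum_insert hi, zpow_add₀ hP0.ne', ih]
    rw [h3, hf, Nat.cast_pow, norm_pow, ← zpow_natCast, ← zpow_mul] at h1
    have h4 := zpow_right_injective₀ hP0 hP1.ne h1
    rw [← h4]
    refine sum_congr rfl fun j _ => ?_
    ring
  refine tau_zero hpf hf0 hd (by rwa [Ne, ZMod.natCast_eq_zero_iff]) (fun j => (a j : ZMod ℓ))
    (fun j => by rw [Ne, ZMod.natCast_eq_zero_iff]; exact ha j) t ?_ x hx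
  intro u
  have hnd : ∀ v : (ZMod ℓ)ˣ, ¬ ℓ ∣ (v : ZMod ℓ).val := by
    intro v h
    have := (ZMod.natCast_eq_zero_iff (v : ZMod ℓ).val ℓ).2 h
    rw [ZMod.natCast_zmod_val] at this
    exact v.ne_zero this
  have hmain : ∀ v : (ZMod ℓ)ˣ, ∑ j, t j * N * (d * (WW ℓ p f ((a j : ZMod ℓ) * v) + ℓ * f) -
      (WW ℓ p f ((d : ZMod ℓ) * (a j : ZMod ℓ) * v) + ℓ * f)) = f * k := by
    intro v
    rw [← key (v : ZMod ℓ).val (hnd v)]
    refine sum_congr rfl fun j _ => ?_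
    have e1 := two_Sd (f := f) hp0 (b := a j * (v : ZMod ℓ).val) (fun h => by
      rcases hℓ.dvd_mul.1 h with h | h
      · exact ha j h
      · exact hnd v h)
    have e2 := two_Sd (f := f) hp0 (b := a j * d * (v : ZMod ℓ).val) (fun h => by
      rcases hℓ.dvd_mul.1 h with h | h
      · rcases hℓ.dvd_mul.1 h with h | h
        · exact ha j h
        · exact hdℓ h
      · exact hnd v h)
    push_cast at e1 e2
    rw [ZMod.natCast_zmod_val] at e1 e2
    rw [mul_comm (a j : ZMod ℓ) (d : ZMod ℓ)] at e2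
    rw [← e1, ← e2]
    ring
  have h1 := hmain u
  have h2 := hmain (-u)
  simp only [Units.val_neg, mul_neg, WW_neg] at h2
  have h3 : (2 * N : ℤ) * ∑ j, t j * ((d : ℤ) * WW ℓ p f ((a j : ZMod ℓ) * u) -
      WW ℓ p f ((d : ZMod ℓ) * (a j : ZMod ℓ) * u)) = 0 := by
    have h4 := sub_eq_zero.2 (h1.trans h2.symm)
    rw [← sum_sub_distrib] at h4
    rw [mul_sum, ← h4]
    refine sum_congr rfl fun j _ => ?_
    ring
  rcases mul_eq_zero.1 h3 with h4 | h4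
  · exfalso
    have : (N : ℤ) ≠ 0 := by exact_mod_cast hN.ne'
    omega
  · exact h4

end Pool.Agent.L5helper29.SE
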