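import Pool.Agent.L5helper29.SE.Base
import Pool.Agent.L5helper29.SE.Stick4

/-!
# The products of the eigenvalues
-/

set_option autoImplicit false
set_option linter.all false

namespace Pool.Agent.L5helper29.SE

open Polynomial Finset
open Pool.Agent.H435R3.Weil

section gamma

variable {E : Type} [Field E] [Fintype E]

/-- a power of the quotient of Gauss sums -/
noncomputable def gam (ψ : AddChar E ℂ) (d ℓ : ℕ) (η : MulChar E ℂ) : ℂ :=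
  (gaussSum η ψ ^ d / gaussSum (η ^ d) ψ) ^ (2 * ℓ)

lemma gam_frob {p : ℕ} [Fact p.Prime] [CharP E p] {ψ : AddChar E ℂ} (hψ : ∀ y, ψ (y ^ p) = ψ y)
    (d ℓ : ℕ) (η : MulChar E ℂ) (k : ℕ) : gam ψ d ℓ (η ^ p ^ k) = gam ψ d ℓ η := by
  classical
  unfold gam
  have h1 : (η ^ p ^ k) ^ d = (η ^ d) ^ p ^ k := by rw [← pow_mul, ← pow_mul, mul_comm]
  rw [h1, gauss_frob_iter hψ, gauss_frob_iter hψ]

lemma gam_inv {ψ : AddChar E ℂ} (hψ : ψ.IsPrimitive) {d : ℕ} (ℓ : ℕ) (hd : 1 ≤ d)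
    {η : MulChar E ℂ} (hη : η ≠ 1) (hηd : η ^ d ≠ 1) :
    gam ψ d ℓ η * gam ψ d ℓ η⁻¹ = (Fintype.card E : ℂ) ^ ((d - 1) * (2 * ℓ)) := by
  classical
  have h1 := gauss_inv hψ hη
  have h2 := gauss_inv hψ hηd
  have hQ : (Fintype.card E : ℂ) ≠ 0 := by exact_mod_cast Fintype.card_ne_zero
  unfold gam
  have e1 : (gaussSum η ψ ^ d / gaussSum (η ^ d) ψ) ^ (2 * ℓ) *
      (gaussSum η⁻¹ ψ ^ d / gaussSum (η⁻¹ ^ d) ψ) ^ (2 * ℓ) =
      ((gaussSum η ψ * gaussSum η⁻¹ ψ) ^ 2) ^ (d * ℓ) /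
        ((gaussSum (η ^ d) ψ * gaussSum (η ^ d)⁻¹ ψ) ^ 2) ^ ℓ := by
    rw [inv_pow]
    rw [← mul_pow, div_mul_div_comm, ← mul_pow, div_pow, ← pow_mul, ← pow_mul, ← pow_mul]
    congr 2
    ring
  rw [e1, h1, h2, ← pow_mul, ← pow_mul, div_eq_iff (pow_ne_zero _ hQ), ← pow_add]
  congr 1
  obtain ⟨k, rfl⟩ : ∃ k, d = k + 1 := ⟨d - 1, by omega⟩
  rw [Nat.add_sub_cancel]
  ring

end gamma

lemma pow_ne {F : Type} [Field F] {ℓ : ℕ} (hℓ : ℓ.Prime) {χ : MulChar F ℂ} (hχ : χ ^ ℓ = 1)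
    (hχ1 : χ ≠ 1) {n : ℕ} (hn : ¬ ℓ ∣ n) : χ ^ n ≠ 1 := by
  haveI : Fact ℓ.Prime := ⟨hℓ⟩
  intro h
  have h1 := orderOf_eq_prime hχ hχ1
  exact hn (h1 ▸ orderOf_dvd_of_pow_eq_one h)

lemma pow_congr {F : Type} [Field F] {ℓ : ℕ} [Fact ℓ.Prime] {χ : MulChar F ℂ} (hχ : χ ^ ℓ = 1)
    {n m : ℕ} (h : (n : ZMod ℓ) = m) : χ ^ n = χ ^ m := by
  rw [ZMod.natCast_eq_natCast_iff] at h
  rw [← Nat.div_add_mod n ℓ, ← Nat.div_add_mod m ℓ, pow_add, pow_add, pow_mul, pow_mul, hχ,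
    one_pow, one_pow, one_mul, one_mul]
  have : n % ℓ = m % ℓ := h
  rw [this]

/-- **The products of the eigenvalues and their relations.** -/
theorem exists_gamma {F : Type} [Field F] [Fintype F] {J : Type} [Fintype J] {p ℓ d : ℕ}
    [Fact p.Prime] [CharP F p] [Fact ℓ.Prime] {χ : MulChar F ℂ} (hχ : χ ^ ℓ = 1) (hχ1 : χ ≠ 1)
    (f : J → F[X]) (c : J → ℕ) (hc : ∀ j, ¬ ℓ ∣ c j) (hd : 2 ≤ d) (hdℓ : ¬ ℓ ∣ d)
    (hsq : ∀ j, Squarefree (f j)) (hdeg : ∀ j, (f j).natDegree = d) (A : J → Multiset ℂ)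
    (hA : ∀ j, IsFrobM (χ ^ c j) (f j) (A j)) :
    ∃ M f₀ : ℕ, 0 < M ∧ 0 < f₀ ∧ (p : ZMod ℓ) ^ f₀ = 1 ∧
      (∀ t : J → ℤ, ∀ N : ℕ, 0 < N → ∀ k : ℤ,
        (∏ j, (A j).prod ^ t j) ^ N = (Fintype.card F : ℂ) ^ k →
        ∀ x : ZMod ℓ, x ≠ 0 → ∑ j, t j * cc ℓ p f₀ (c j : ZMod ℓ) x = 0) ∧
      (∀ (i j : J) (s : ℕ), (c j : ZMod ℓ) = c i * (p : ZMod ℓ) ^ s →
        (A i).prod ^ M = (A j).prod ^ M) ∧
      (∀ (i j : J) (s : ℕ), (c j : ZMod ℓ) = -(c i * (p : ZMod ℓ) ^ s) →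
        (A i).prod ^ M * (A j).prod ^ M = (Fintype.card F : ℂ) ^ (M * (d - 1))) := by
  classical
  have hℓ : ℓ.Prime := Fact.out
  obtain ⟨E, i1, i2, i3, i4, hsp⟩ := exists_split_ext (∏ j, f j)
  have hf0 : ∀ j, f j ≠ 0 := by
    intro j h
    have := hdeg j
    rw [h, natDegree_zero] at this
    omega
  have hspj : ∀ j, ((f j).map (algebraMap F E)).Splits := by
    intro j
    refine hsp.of_dvd ?_ (Polynomial.map_dvd _ (dvd_prod_of_mem f (mem_univ j)))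
    rw [Ne, Polynomial.map_eq_zero]
    exact prod_ne_zero_iff.2 fun j _ => hf0 j
  set m := Module.finrank F E with hm
  have hm0 : 0 < m := Module.finrank_pos
  haveI : CharP E p := charP_of_injective_algebraMap (algebraMap F E).injective p
  obtain ⟨ψ, hψ⟩ := exists_trC (p := p) E
  obtain ⟨hprim, hfrob⟩ := trC_prim hψ
  set η := normChar F E χ with hη
  have hηℓ : η ^ ℓ = 1 := normChar_pow F E χ ℓ hℓ.ne_zero hχ
  have hη1 : η ≠ 1 := normChar_ne_one F E χ hχ1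
  have hηc : ∀ j, normChar F E (χ ^ c j) = η ^ c j := fun j => (normChar_pow' E χ (c j)).symm
  obtain ⟨f₀, _, hcardE⟩ := FiniteField.card E p
  have hEq : (Fintype.card E : ℂ) = (Fintype.card F : ℂ) ^ m := by
    rw [Module.card_eq_pow_finrank (K := F) (V := E)]
    push_cast
    rfl
  have hdvd : ℓ ∣ Fintype.card E - 1 := by
    have h1 := orderOf_eq_prime hηℓ hη1
    rw [← h1]
    exact orderOf_dvd_of_pow_eq_one (pow_card_char η)
  have hcd : ∀ j, ¬ ℓ ∣ c j * d := by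
    intro j h
    rcases hℓ.dvd_mul.1 h with h | h
    · exact hc j h
    · exact hdℓ h
  have hγ : ∀ j, (A j).prod ^ (2 * ℓ * m) = gam ψ d ℓ (η ^ c j) := by
    intro j
    have h1 := frobM_gamma (χ := χ ^ c j) (f := f j) (d := d) (ℓ := ℓ) (by omega)
      (pow_ne hℓ hχ hχ1 (hc j)) (by rw [← pow_mul]; exact pow_ne hℓ hχ hχ1 (hcd j))
      (by rw [← pow_mul, mul_comm, pow_mul, hχ, one_pow]) hℓ.ne_zero (hsq j) (hdeg j) (hA j) E
      (hspj j) ψ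
    rw [hηc j, ← hm] at h1
    have h2 : gaussSum ((η ^ c j) ^ d) ψ ≠ 0 := by
      apply gauss_ne_zero hprim
      rw [← pow_mul]
      exact pow_ne hℓ hηℓ hη1 (hcd j)
    have h3 : (A j).prod ^ (2 * ℓ * m) = ((A j).prod ^ m) ^ (2 * ℓ) := by
      rw [← pow_mul]
      congr 1
      ring
    unfold gam
    rw [div_pow, eq_div_iff (pow_ne_zero _ h2), h3, h1]
  have hpf : (p : ZMod ℓ) ^ (f₀ : ℕ) = 1 := by
    have h1 : ((Fintype.card E - 1 : ℕ) : ZMod ℓ) = 0 := (ZMod.natCast_eq_zero_iff _ _).2 hdvd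
    have hQ : 1 < Fintype.card E := Fintype.one_lt_card
    rw [Nat.cast_sub hQ.le, hcardE] at h1
    push_cast at h1
    exact sub_eq_zero.1 h1
  refine ⟨2 * ℓ * m, f₀, Nat.mul_pos (Nat.mul_pos two_pos hℓ.pos) hm0, f₀.pos, hpf, ?_, ?_, ?_⟩
  · intro t N hN k h x hx
    refine rel_tau hcardE hdvd hηℓ hη1 hψ hd hdℓ c hc t N hN (2 * ℓ * k) ?_ x hx
    have h1 := congrArg (fun z : ℂ => z ^ (2 * ℓ * m)) h
    have h2 : ∀ j, ((gaussSum (η ^ c j) ψ ^ d / gaussSum ((η ^ c j) ^ d) ψ) ^ (2 * ℓ)) ^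
        (t j * N) = (((A j).prod ^ t j) ^ N) ^ (2 * ℓ * m) := by
      intro j
      have h3 := hγ j
      unfold gam at h3
      rw [← h3]
      rw [← zpow_natCast, ← zpow_natCast, ← zpow_natCast, ← zpow_mul, ← zpow_mul, ← zpow_mul]
      congr 1
      push_cast
      ring
    rw [prod_congr rfl fun j _ => h2 j, prod_pow, prod_pow, h, hEq, ← zpow_natCast, ← zpow_natCast,
      ← zpow_mul, ← zpow_mul]
    congr 1
    push_cast
    ring
  · intro i j s h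
    rw [hγ i, hγ j]
    have h1 : η ^ c j = (η ^ c i) ^ p ^ s := by
      rw [← pow_mul]
      apply pow_congr hηℓ
      push_cast
      exact h
    rw [h1, gam_frob hfrob]
  · intro i j s h
    rw [hγ i, hγ j]
    have h1 : η ^ c j = ((η ^ c i) ^ p ^ s)⁻¹ := by
      rw [eq_inv_iff_mul_eq_one, ← pow_mul, ← pow_add]
      have h2 : ((c j + c i * p ^ s : ℕ) : ZMod ℓ) = (0 : ℕ) := by
        push_cast
        rw [h]
        ring
      rw [pow_congr hηℓ h2, pow_zero]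
    have hp0 : ¬ ℓ ∣ p := by
      intro h0
      rw [(ZMod.natCast_eq_zero_iff _ _).2 h0, zero_pow f₀.pos.ne'] at hpf
      exact zero_ne_one hpf
    have hcp : ¬ ℓ ∣ c i * p ^ s := by
      intro h0
      rcases hℓ.dvd_mul.1 h0 with h0 | h0
      · exact hc i h0
      · exact hp0 (hℓ.dvd_of_dvd_pow h0)
    have hcpd : ¬ ℓ ∣ c i * p ^ s * d := by
      intro h0
      rcases hℓ.dvd_mul.1 h0 with h0 | h0
      · exact hcp h0
      · exact hdℓ h0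
    rw [← gam_frob hfrob d ℓ (η ^ c i) s, h1, gam_inv hprim ℓ (by omega)
      (by rw [← pow_mul]; exact pow_ne hℓ hηℓ hη1 hcp)
      (by rw [← pow_mul (η ^ c i), ← pow_mul, ← mul_assoc]; exact pow_ne hℓ hηℓ hη1 hcpd), hEq,
      ← pow_mul]
    congr 1
    ring

end Pool.Agent.L5helper29.SE
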