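import Pool.Agent.L5helper29.SE.Main1
import Pool.Agent.L5helper29.SE.Comb2
import Pool.Agent.L5helper29.AS.Final

/-!
# Tate classes on products of powers of superelliptic curves
-/

set_option autoImplicit false
set_option linter.all false

namespace Pool.Agent.L5helper29.SE

open Polynomial Finset
open Pool.Agent.H435R3.Weil
open Pool.Agent.L5helper29.AS (FixMu Gp detC detC_eig blk gens mono)

section comb

variable {J : Type*} [Fintype J] [DecidableEq J] {ℓ : ℕ} [Fact ℓ.Prime] {p f₀ : ℕ}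

lemma cc_pos {a x : ZMod ℓ} (h : 0 < cc ℓ p f₀ a x) : ∃ s : ℕ, a = x * (p : ZMod ℓ) ^ s := by
  by_contra hn
  push Not at hn
  have : cc ℓ p f₀ a x ≤ 0 := by
    unfold cc
    apply sum_nonpos
    intro s _
    rw [if_neg (hn s)]
    split_ifs <;> norm_num
  omega

lemma cc_neg {a x : ZMod ℓ} (h : cc ℓ p f₀ a x < 0) : ∃ s : ℕ, a = -(x * (p : ZMod ℓ) ^ s) := by
  by_contra hn
  push Not at hn
  have : 0 ≤ cc ℓ p f₀ a x := by
    unfold cc
    apply sum_nonneg
    intro s _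
    rw [if_neg (hn s)]
    split_ifs <;> norm_num
  omega

lemma cc_self {a : ZMod ℓ} (ha : a ≠ 0) (hf : 0 < f₀) (hneg : ∀ s : ℕ, (p : ZMod ℓ) ^ s ≠ -1) :
    0 < cc ℓ p f₀ a a := by
  unfold cc
  have h1 : ∀ s : ℕ, a ≠ -(a * (p : ZMod ℓ) ^ s) := by
    intro s h
    apply hneg s
    have h2 : a * ((p : ZMod ℓ) ^ s + 1) = 0 := by linear_combination h
    rcases mul_eq_zero.1 h2 with h3 | h3
    · exact absurd h3 ha
    · exact eq_neg_of_add_eq_zero_left h3
  apply sum_pos'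
  · intro s _
    rw [if_neg (h1 s)]
    split_ifs <;> norm_num
  · refine ⟨0, mem_range.2 hf, ?_⟩
    rw [if_neg (h1 0), if_pos (by simp)]
    norm_num

/-- the pairs of blocks whose product consists of Tate classes -/
def Al (ℓ p : ℕ) (c : J → ℕ) (i : J) (ε : Bool) (j : J) (ε' : Bool) : Prop :=
  ∃ k : ℕ, ((sg ε' : ℤ) : ZMod ℓ) * c j = -(((sg ε : ℤ) : ZMod ℓ) * c i * (p : ZMod ℓ) ^ k)

lemma exists_pair (hf : 0 < f₀) (hneg : ∀ s : ℕ, (p : ZMod ℓ) ^ s ≠ -1) (c : J → ℕ)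
    (hc : ∀ j, ¬ ℓ ∣ c j) (t : J → ℤ)
    (ht : ∀ x : ZMod ℓ, x ≠ 0 → ∑ j, t j * cc ℓ p f₀ (c j : ZMod ℓ) x = 0) (h0 : ∃ j, t j ≠ 0) :
    ∃ i ε j ε', i ≠ j ∧ Al ℓ p c i ε j ε' ∧ 0 < sg ε * t i ∧ 0 < sg ε' * t j := by
  obtain ⟨i, hi⟩ := h0
  have hci : (c i : ZMod ℓ) ≠ 0 := by
    rw [Ne, ZMod.natCast_eq_zero_iff]
    exact hc i
  obtain ⟨ε, hε⟩ : ∃ ε, 0 < sg ε * t i := by
    rcases lt_or_gt_of_ne hi with h | h
    · exact ⟨false, by simp only [sg, Bool.false_eq_true, if_false]; omega⟩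
    · exact ⟨true, by simp only [sg, if_true]; omega⟩
  have hself := cc_self hci hf hneg
  have h1 := ht (c i) hci
  have h2 : ∑ j, sg ε * (t j * cc ℓ p f₀ (c j : ZMod ℓ) (c i)) = 0 := by
    rw [← mul_sum, h1, mul_zero]
  obtain ⟨j, hj⟩ : ∃ j, sg ε * (t j * cc ℓ p f₀ (c j : ZMod ℓ) (c i)) < 0 := by
    by_contra hn
    push Not at hn
    have h3 : sg ε * (t i * cc ℓ p f₀ (c i : ZMod ℓ) (c i)) ≤ 0 := by
      rw [← h2]
      exact single_le_sum (f := fun j => sg ε * (t j * cc ℓ p f₀ (c j : ZMod ℓ) (c i)))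
        (fun j _ => hn j) (mem_univ i)
    have h4 : 0 < sg ε * t i * cc ℓ p f₀ (c i : ZMod ℓ) (c i) := mul_pos hε hself
    rw [mul_assoc] at h4
    omega
  have hij : i ≠ j := by
    rintro rfl
    have h4 : 0 < sg ε * t i * cc ℓ p f₀ (c i : ZMod ℓ) (c i) := mul_pos hε hself
    rw [mul_assoc] at h4
    omega
  have htj : t j ≠ 0 := by
    intro h
    rw [h, zero_mul, mul_zero] at hj
    exact lt_irrefl _ hj
  refine ⟨i, ε, j, ?_⟩
  rcases lt_or_gt_of_ne htj with h | h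
  · refine ⟨false, hij, ?_, hε, by simp only [sg, Bool.false_eq_true, if_false]; omega⟩
    cases ε
    · simp only [sg, Bool.false_eq_true, if_false] at hj ⊢
      have h3 : cc ℓ p f₀ (c j : ZMod ℓ) (c i) < 0 := by
        by_contra hn
        push Not at hn
        have : t j * cc ℓ p f₀ (c j : ZMod ℓ) (c i) ≤ 0 := mul_nonpos_of_nonpos_of_nonneg h.le hn
        omega
      obtain ⟨s, hs⟩ := cc_neg h3
      refine ⟨s, ?_⟩
      simp only [sg, Bool.false_eq_true, if_false]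
      push_cast
      rw [hs]
      ring
    · simp only [sg, if_true] at hj
      have h3 : 0 < cc ℓ p f₀ (c j : ZMod ℓ) (c i) := by
        by_contra hn
        push Not at hn
        have : 0 ≤ t j * cc ℓ p f₀ (c j : ZMod ℓ) (c i) := mul_nonneg_of_nonpos_of_nonpos h.le hn
        omega
      obtain ⟨s, hs⟩ := cc_pos h3
      refine ⟨s, ?_⟩
      simp only [sg, Bool.false_eq_true, if_false, if_true]
      push_cast
      rw [hs]
      ring
  · refine ⟨true, hij, ?_, hε, by simp only [sg, if_true]; omega⟩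
    cases ε
    · simp only [sg, Bool.false_eq_true, if_false] at hj
      have h3 : 0 < cc ℓ p f₀ (c j : ZMod ℓ) (c i) := by
        by_contra hn
        push Not at hn
        have : t j * cc ℓ p f₀ (c j : ZMod ℓ) (c i) ≤ 0 := mul_nonpos_of_nonneg_of_nonpos h.le hn
        omega
      obtain ⟨s, hs⟩ := cc_pos h3
      refine ⟨s, ?_⟩
      simp only [sg, Bool.false_eq_true, if_false, if_true]
      push_cast
      rw [hs]
      ring
    · simp only [sg, if_true] at hj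
      have h3 : cc ℓ p f₀ (c j : ZMod ℓ) (c i) < 0 := by
        by_contra hn
        push Not at hn
        have : 0 ≤ t j * cc ℓ p f₀ (c j : ZMod ℓ) (c i) := mul_nonneg h.le hn
        omega
      obtain ⟨s, hs⟩ := cc_neg h3
      refine ⟨s, ?_⟩
      simp only [sg, if_true]
      push_cast
      rw [hs]
      ring

end comb

section powers

variable {J : Type*} [Fintype J] [DecidableEq J] {ℓ : ℕ} {p : ℕ} {D : J → ℂ} {q : ℕ} {M n : ℕ}
  {c : J → ℕ}

/-- the powers of the products -/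
lemma pair_pow (hq : (q : ℂ) ≠ 0) (hD0 : ∀ j, D j ≠ 0)
    (h1 : ∀ (i j : J) (s : ℕ), (c j : ZMod ℓ) = c i * (p : ZMod ℓ) ^ s → D i ^ M = D j ^ M)
    (h2 : ∀ (i j : J) (s : ℕ), (c j : ZMod ℓ) = -(c i * (p : ZMod ℓ) ^ s) →
      D i ^ M * D j ^ M = (q : ℂ) ^ (M * n)) {i j : J} {ε ε' : Bool} (h : Al ℓ p c i ε j ε') :
    (∃ k : ℤ, (D i ^ sg ε * D j ^ sg ε') ^ M = (q : ℂ) ^ k) ∧
    ((if ε = true then D i else (q : ℂ) ^ n / D i) *
      (if ε' = true then D j else (q : ℂ) ^ n / D j)) ^ M = (q : ℂ) ^ (n * M) := by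
  obtain ⟨k, hk⟩ := h
  have hDM : ∀ j, D j ^ M ≠ 0 := fun j => pow_ne_zero _ (hD0 j)
  cases ε <;> cases ε' <;> simp only [sg, Bool.false_eq_true, if_false, if_true] at hk ⊢ <;>
    push_cast at hk
  · have h3 := h2 i j k (by linear_combination -hk)
    constructor
    · refine ⟨-((M * n : ℕ) : ℤ), ?_⟩
      rw [zpow_neg_one, zpow_neg_one, mul_pow, inv_pow, inv_pow, zpow_neg, zpow_natCast, ← h3,
        mul_inv]
    · rw [div_mul_div_comm, div_pow, mul_pow (D i), h3, mul_pow, ← pow_mul,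
        div_eq_iff (pow_ne_zero _ hq), ← pow_add, ← pow_add]
      congr 1
      ring
  · have h3 := h1 i j k (by linear_combination hk)
    constructor
    · refine ⟨0, ?_⟩
      rw [zpow_zero, zpow_neg_one, zpow_one, mul_pow, inv_pow, h3, inv_mul_cancel₀ (hDM j)]
    · rw [div_mul_eq_mul_div, div_pow, h3, mul_pow, mul_div_assoc, div_self (hDM j), mul_one,
        ← pow_mul]
  · have h3 := h1 i j k (by linear_combination -hk)
    constructor
    · refine ⟨0, ?_⟩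
      rw [zpow_zero, zpow_neg_one, zpow_one, mul_pow, inv_pow, h3, mul_inv_cancel₀ (hDM j)]
    · rw [mul_div_assoc', div_pow, mul_pow, h3, mul_div_assoc, mul_comm, div_mul_cancel₀ _ (hDM j),
        ← pow_mul]
  · have h3 := h2 i j k (by linear_combination hk)
    constructor
    · refine ⟨((M * n : ℕ) : ℤ), ?_⟩
      rw [zpow_natCast, ← h3, zpow_one, zpow_one, mul_pow]
    · rw [mul_pow, h3]
      congr 1
      ring

lemma prod_single (i : J) (e : ℤ) : ∏ j, D j ^ (Pi.single i e : J → ℤ) j = D i ^ e := by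
  rw [prod_eq_single i]
  · rw [Pi.single_eq_same]
  · intro j _ hj
    rw [Pi.single_eq_of_ne hj, zpow_zero]
  · intro h
    exact absurd (mem_univ _) h

/-- relations minus pairs -/
lemma rel_sub (hq : (q : ℂ) ≠ 0) (hD0 : ∀ j, D j ≠ 0) (hM : 0 < M) {t : J → ℤ} {i j : J} {e e' : ℤ}
    (ht : ∃ N : ℕ, 0 < N ∧ ∃ k : ℤ, (∏ j, D j ^ t j) ^ N = (q : ℂ) ^ k)
    (h : ∃ k : ℤ, (D i ^ e * D j ^ e') ^ M = (q : ℂ) ^ k) :
    ∃ N : ℕ, 0 < N ∧ ∃ k : ℤ,
      (∏ l, D l ^ (t - (Pi.single i e : J → ℤ) - (Pi.single j e' : J → ℤ)) l) ^ N = (q : ℂ) ^ k := by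
  obtain ⟨N, hN, k, hk⟩ := ht
  obtain ⟨k', hk'⟩ := h
  refine ⟨N * M, Nat.mul_pos hN hM, k * M - k' * N, ?_⟩
  have h1 : ∏ l, D l ^ (t - (Pi.single i e : J → ℤ) - (Pi.single j e' : J → ℤ)) l =
      (∏ l, D l ^ t l) / (D i ^ e * D j ^ e') := by
    rw [← prod_single (D := D) i e, ← prod_single (D := D) j e', ← prod_mul_distrib,
      ← prod_div_distrib]
    refine prod_congr rfl fun l _ => ?_
    rw [Pi.sub_apply, Pi.sub_apply, zpow_sub₀ (hD0 l), zpow_sub₀ (hD0 l), div_div]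
  rw [h1, div_pow, zpow_sub₀ hq, zpow_mul, zpow_mul, ← hk, ← hk', zpow_natCast, zpow_natCast,
    ← pow_mul, ← pow_mul, mul_comm M N]

end powers

end Pool.Agent.L5helper29.SE
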