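import Pool.Agent.W528.HB.Est
import Pool.Agent.W883.HB.DG
import Pool.Agent.W563.HB.DI
import Pool.Agent.W400.HB.TT
import Pool.Agent.W540.HB.GO
import Pool.Agent.W271.HB.AY
import Pool.Agent.W999.HB.TP
import Pool.Agent.W135.HB.SA

/-!
# The exact `p`-adic absolute values of the Gauss sums of the characters of order `ℓ`
-/

set_option autoImplicit false
set_option linter.all false

namespace Pool.Agent.L5helper29.SE

open Finset Pool.Agent.W528.HB

/-- `ℓ` times the sum of the fractional parts of `b p ^ s / ℓ` -/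
def Sd (ℓ p f : ℕ) (b : ℕ) : ℕ := ∑ s ∈ range f, (b * p ^ s) % ℓ

lemma Sd_mod (ℓ p f b : ℕ) : Sd ℓ p f (b % ℓ) = Sd ℓ p f b := by
  unfold Sd
  refine sum_congr rfl fun s _ => ?_
  rw [Nat.mod_mul_mod]

lemma Sd_neg {ℓ p f : ℕ} (hℓ : ℓ.Prime) (hp : ¬ ℓ ∣ p) {b b' : ℕ} (hb : ¬ ℓ ∣ b)
    (h : ℓ ∣ b + b') : Sd ℓ p f b + Sd ℓ p f b' = ℓ * f := by
  unfold Sd
  rw [← sum_add_distrib]
  have h1 : ∀ s ∈ range f, (b * p ^ s) % ℓ + (b' * p ^ s) % ℓ = ℓ := by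
    intro s _
    have h2 : ¬ ℓ ∣ b * p ^ s := by
      intro h3
      rcases (Nat.Prime.dvd_mul hℓ).1 h3 with h4 | h4
      · exact hb h4
      · exact hp (hℓ.dvd_of_dvd_pow h4)
    have h3 : ℓ ∣ b * p ^ s + b' * p ^ s := by
      rw [← add_mul]
      exact Dvd.dvd.mul_right h _
    have h4 : 0 < (b * p ^ s) % ℓ := Nat.pos_of_ne_zero fun h => h2 (Nat.dvd_of_mod_eq_zero h)
    have h5 := Nat.mod_lt (b * p ^ s) hℓ.pos
    have h6 := Nat.mod_lt (b' * p ^ s) hℓ.pos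
    have h7 : ℓ ∣ (b * p ^ s) % ℓ + (b' * p ^ s) % ℓ := by
      rw [Nat.dvd_iff_mod_eq_zero, ← Nat.add_mod, ← Nat.dvd_iff_mod_eq_zero]
      exact h3
    obtain ⟨k, hk⟩ := h7
    have h8 : k = 1 := by
      have : 0 < k := by
        rcases Nat.eq_zero_or_pos k with h0 | h0
        · rw [h0] at hk; omega
        · exact h0
      have : k < 2 := by
        by_contra h9
        have : ℓ * 2 ≤ ℓ * k := Nat.mul_le_mul_left _ (by omega)
        omega
      omega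
    rw [hk, h8, mul_one]
  rw [sum_congr rfl h1, sum_const, card_range, smul_eq_mul, mul_comm]

variable {p : ℕ} [Fact p.Prime]

lemma norm_char {E : Type} [Field E] [Fintype E] (χ : MulChar E (PadicAlgCl p)) {x : E}
    (hx : x ≠ 0) : ‖χ x‖ = 1 := by
  classical
  have h1 : χ x ^ (Fintype.card E - 1) = 1 := by
    rw [← map_pow, FiniteField.pow_card_sub_one_eq_one x hx, map_one]
  have h2 : ‖χ x‖ ^ (Fintype.card E - 1) = 1 := by rw [← norm_pow, h1, norm_one]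
  have h3 : Fintype.card E - 1 ≠ 0 := by
    have : 1 < Fintype.card E := Fintype.one_lt_card
    omega
  exact (pow_eq_one_iff_of_nonneg (norm_nonneg _) h3).1 h2

lemma norm_mul_inv {E : Type} [Field E] [Fintype E] {χ : MulChar E (PadicAlgCl p)} (hχ : χ ≠ 1)
    {ψ : AddChar E (PadicAlgCl p)} (hψ : ψ.IsPrimitive) :
    ‖gaussSum χ ψ‖ * ‖gaussSum χ⁻¹ ψ‖ = ‖((Fintype.card E : ℕ) : PadicAlgCl p)‖ := by
  classical
  have h1 := gaussSum_mul_gaussSum_eq_card hχ hψ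
  have h2 : gaussSum χ⁻¹ ψ⁻¹ = χ⁻¹ (-1) * gaussSum χ⁻¹ ψ := by
    unfold gaussSum
    rw [mul_sum, ← Equiv.sum_comp (Equiv.neg E)]
    refine sum_congr rfl fun x _ => ?_
    rw [Equiv.neg_apply, AddChar.inv_apply, neg_neg, ← neg_one_mul, map_mul]
    ring
  rw [h2] at h1
  rw [← h1, norm_mul, norm_mul, norm_char _ (neg_ne_zero.2 one_ne_zero), one_mul]

/-- **Stickelberger**: the exact absolute values. -/
theorem norm_exact (E : Type) [Field E] [Fintype E] [CharP E p] {f ℓ : ℕ} (hℓ : ℓ.Prime)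
    (hf : Fintype.card E = p ^ f) (hdvd : ℓ ∣ Fintype.card E - 1) :
    ∃ T : MulChar E (PadicAlgCl p), T ^ ℓ = 1 ∧ T ≠ 1 ∧
      ∀ b : ℕ, ¬ ℓ ∣ b → ∀ ψ : AddChar E (PadicAlgCl p), IsTr p E ψ →
        ‖gaussSum (T ^ b)⁻¹ ψ‖ ^ ℓ = ‖((p : ℕ) : PadicAlgCl p)‖ ^ Sd ℓ p f b := by
  classical
  obtain ⟨k, ik, R, res, hk1, hk2, hR⟩ := Pool.Agent.W999.HB.TP.main p
  letI := ZMod.algebra E p
  letI := ZMod.algebra k p
  haveI : Module.Finite (ZMod p) E := Module.Finite.of_finite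
  haveI : Algebra.IsAlgebraic (ZMod p) E := Algebra.IsAlgebraic.of_finite _ _
  let e : E →+* k := (IsAlgClosed.lift (R := ZMod p) (M := k) (S := E)).toRingHom
  obtain ⟨w, hw⟩ := Pool.Agent.W400.HB.TT.main p k R res hR E e
  have hAY := Pool.Agent.W271.HB.AY.main p E
  have hGO := Pool.Agent.W540.HB.GO.main p k R res hR E e w hw
  have hDG : DG := Pool.Agent.W883.HB.DG.main Pool.Agent.W135.HB.SA.main
  have hDI : DI := Pool.Agent.W563.HB.DI.main
  have hQ : 1 < Fintype.card E := Fintype.one_lt_card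
  have hf0 : 0 < f := by
    rcases Nat.eq_zero_or_pos f with h | h
    · rw [h, pow_zero] at hf; omega
    · exact h
  have hp0 : ¬ ℓ ∣ p := by
    intro h
    have h1 : ℓ ∣ Fintype.card E := by
      rw [hf]
      exact dvd_pow h hf0.ne'
    have h2 : ℓ ∣ 1 := by
      have := (Nat.dvd_sub h1 hdvd)
      have h3 : Fintype.card E - (Fintype.card E - 1) = 1 := by omega
      rwa [h3] at this
    exact hℓ.one_lt.ne' (Nat.dvd_one.1 h2)
  set M := (Fintype.card E - 1) / ℓ with hM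
  have hMℓ : M * ℓ = Fintype.card E - 1 := Nat.div_mul_cancel hdvd
  set T := w ^ M with hT
  have hTℓ : T ^ ℓ = 1 := T_pow_card w hdvd
  have hTb : ∀ b, ¬ ℓ ∣ b → T ^ b ≠ 1 := by
    intro b hb h1
    obtain ⟨g, hg⟩ := IsCyclic.exists_generator (α := Eˣ)
    have hgo : orderOf g = Fintype.card E - 1 := by
      rw [orderOf_eq_card_of_forall_mem_zpowers hg, Nat.card_eq_fintype_card, Fintype.card_units]
    have h2 : (w (g : E)) ^ (M * b) = 1 := by
      have h3 : (T ^ b) (g : E) = 1 := by rw [h1, MulChar.one_apply_coe]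
      rw [MulChar.pow_apply_coe, hT, MulChar.pow_apply_coe, ← pow_mul] at h3
      exact h3
    obtain ⟨hm, hres⟩ := hw (g : E)
    have h4 : (e (g : E)) ^ (M * b) = 1 := by
      rw [← hres, ← map_pow]
      have : (⟨w (g : E), hm⟩ : R) ^ (M * b) = 1 := Subtype.ext h2
      rw [this, map_one]
    have h5 : (g : E) ^ (M * b) = 1 := by
      apply e.injective
      rw [map_pow, h4, map_one]
    have h6 : g ^ (M * b) = 1 := Units.ext h5
    have h7 : Fintype.card E - 1 ∣ M * b := hgo ▸ orderOf_dvd_of_pow_eq_one h6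
    rw [← hMℓ] at h7
    have hM0 : 0 < M := by
      rcases Nat.eq_zero_or_pos M with h | h
      · rw [h, zero_mul] at hMℓ; omega
      · exact h
    exact hb ((Nat.mul_dvd_mul_iff_left hM0).1 h7)
  refine ⟨T, hTℓ, ?_, ?_⟩
  · have := hTb 1 (fun h => hℓ.one_lt.ne' (Nat.dvd_one.1 h))
    rwa [pow_one] at this
  · have hlow : ∀ b : ℕ, ∀ ψ : AddChar E (PadicAlgCl p), IsTr p E ψ →
        ‖((p : ℕ) : PadicAlgCl p)‖ ^ Sd ℓ p f b ≤ ‖gaussSum (T ^ b)⁻¹ ψ‖ ^ ℓ := by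
      intro b ψ hψ
      obtain ⟨hprim, hfrob⟩ := hAY.2 ψ hψ
      have h1 := norm_gauss hDG hDI w ψ hprim hfrob (hGO ψ hψ) hf hdvd hf0 (b % ℓ)
        (Nat.mod_lt _ hℓ.pos)
      have h2 : (w ^ ((Fintype.card E - 1) / ℓ)) ^ (b % ℓ) = T ^ b := by
        rw [← hM, ← hT]
        conv_rhs => rw [← Nat.div_add_mod b ℓ, pow_add, pow_mul, hTℓ, one_pow, one_mul]
      rw [h2] at h1
      have h3 : Sd ℓ p f (b % ℓ) = Sd ℓ p f b := Sd_mod ℓ p f b
      rw [← h3]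
      exact h1
    intro b hb ψ hψ
    obtain ⟨hprim, hfrob⟩ := hAY.2 ψ hψ
    obtain ⟨b', hbb'⟩ : ∃ b', ℓ ∣ b + b' := by
      refine ⟨b * (ℓ - 1), ?_⟩
      have : b + b * (ℓ - 1) = b * ℓ := by
        obtain ⟨j, rfl⟩ : ∃ j, ℓ = j + 1 := ⟨ℓ - 1, by have := hℓ.pos; omega⟩
        rw [Nat.add_sub_cancel]
        ring
      rw [this]
      exact dvd_mul_left _ _
    have h1 := hlow b ψ hψ
    have h2 := hlow b' ψ hψ
    have h3 : T ^ b' = (T ^ b)⁻¹ := by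
      rw [eq_inv_iff_mul_eq_one, ← pow_add]
      obtain ⟨j, hj⟩ := hbb'
      rw [add_comm, hj, pow_mul, hTℓ, one_pow]
    rw [h3, inv_inv] at h2
    have h4 := norm_mul_inv (hTb b hb) hprim
    have h5 : (‖gaussSum (T ^ b) ψ‖ ^ ℓ) * (‖gaussSum (T ^ b)⁻¹ ψ‖ ^ ℓ) =
        ‖((p : ℕ) : PadicAlgCl p)‖ ^ Sd ℓ p f b * ‖((p : ℕ) : PadicAlgCl p)‖ ^ Sd ℓ p f b' := by
      rw [← mul_pow, h4, hf, ← pow_add, Sd_neg hℓ hp0 hb hbb', Nat.cast_pow, norm_pow, ← pow_mul,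
        mul_comm ℓ f]
    have hpos : 0 < ‖((p : ℕ) : PadicAlgCl p)‖ := by
      rw [norm_pos_iff]
      have h6 : ((p : ℚ_[p])) ≠ 0 := by exact_mod_cast (Fact.out : p.Prime).ne_zero
      intro h
      apply h6
      have h2 : algebraMap ℚ_[p] (PadicAlgCl p) (p : ℚ_[p]) = algebraMap ℚ_[p] (PadicAlgCl p) 0 := by
        rw [map_natCast, map_zero]; exact h
      exact (algebraMap ℚ_[p] (PadicAlgCl p)).injective h2
    apply le_antisymm _ h1
    by_contra hlt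
    push Not at hlt
    have h6 : ‖((p : ℕ) : PadicAlgCl p)‖ ^ Sd ℓ p f b' * ‖((p : ℕ) : PadicAlgCl p)‖ ^ Sd ℓ p f b <
        (‖gaussSum (T ^ b) ψ‖ ^ ℓ) * (‖gaussSum (T ^ b)⁻¹ ψ‖ ^ ℓ) :=
      mul_lt_mul' h2 hlt (by positivity) (lt_of_lt_of_le (by positivity) h2)
    rw [h5, mul_comm] at h6
    exact lt_irrefl _ h6

end Pool.Agent.L5helper29.SE
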