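import Pool.Agent.L5helper29.SE.Stick1
import Pool.Agent.R847.Gap.Emb
import Pool.Agent.Helper475.ExistsRingequivPow

/-!
# The `p`-adic absolute values for all embeddings of `ℂ`
-/

set_option autoImplicit false
set_option linter.all false

namespace Pool.Agent.L5helper29.SE

open Finset Pool.Agent.W528.HB

variable {p : ℕ} [Fact p.Prime]

/-- `ψ y = ζ ^ Tr y` -/
def IsTrC (p : ℕ) [Fact p.Prime] (E : Type) [Field E] [Fintype E] [CharP E p]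
    (ψ : AddChar E ℂ) : Prop :=
  letI := ZMod.algebra E p
  ∃ ζ : ℂ, IsPrimitiveRoot ζ p ∧ ∀ y : E, ψ y = ζ ^ (Algebra.trace (ZMod p) E y).val

lemma exists_trC (E : Type) [Field E] [Fintype E] [CharP E p] : ∃ ψ, IsTrC p E ψ := by
  obtain ⟨ν⟩ := Pool.Agent.R847.Gap.exists_iso p
  obtain ⟨⟨ψ, ζ, hζ, hψ⟩, -⟩ := Pool.Agent.W271.HB.AY.main p E
  refine ⟨(ν.symm : PadicAlgCl p →* ℂ).compAddChar ψ, ν.symm ζ, ?_, ?_⟩
  · exact hζ.map_of_injective ν.symm.injective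
  · intro y
    have := congrArg ν.symm (hψ y)
    rw [map_pow] at this
    exact this

lemma trC_map {E : Type} [Field E] [Fintype E] [CharP E p] {ψ : AddChar E ℂ} (hψ : IsTrC p E ψ)
    (ν : ℂ ≃+* PadicAlgCl p) : IsTr p E ((ν : ℂ →* PadicAlgCl p).compAddChar ψ) := by
  obtain ⟨ζ, hζ, hψ⟩ := hψ
  refine ⟨ν ζ, hζ.map_of_injective ν.injective, ?_⟩
  intro y
  have := congrArg ν (hψ y)
  rw [map_pow] at this
  exact this

lemma trC_prim {E : Type} [Field E] [Fintype E] [CharP E p] {ψ : AddChar E ℂ}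
    (hψ : IsTrC p E ψ) : ψ.IsPrimitive ∧ ∀ y, ψ (y ^ p) = ψ y := by
  obtain ⟨ν⟩ := Pool.Agent.R847.Gap.exists_iso p
  obtain ⟨h1, h2⟩ := (Pool.Agent.W271.HB.AY.main p E).2 _ (trC_map hψ ν)
  constructor
  · have h3 := AddChar.IsPrimitive.compMulHom_of_isPrimitive (f := (ν.symm : PadicAlgCl p →* ℂ)) h1
      ν.symm.injective
    have h4 : (ν.symm : PadicAlgCl p →* ℂ).compAddChar
        ((ν : ℂ →* PadicAlgCl p).compAddChar ψ) = ψ := by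
      ext y
      exact ν.symm_apply_apply (ψ y)
    rwa [h4] at h3
  · intro y
    exact ν.injective (h2 y)

/-- characters of order `ℓ` are powers of one of them -/
lemma exists_pow_eq {E : Type} [Field E] [Fintype E] {ℓ : ℕ} (hℓ : ℓ.Prime)
    {T χ : MulChar E (PadicAlgCl p)} (hT : T ^ ℓ = 1) (hT1 : T ≠ 1) (hχ : χ ^ ℓ = 1)
    (hχ1 : χ ≠ 1) : ∃ c : ℕ, ¬ ℓ ∣ c ∧ χ = (T ^ c)⁻¹ := by
  classical
  obtain ⟨g, hg⟩ := IsCyclic.exists_generator (α := Eˣ)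
  have h1 : T g ^ ℓ = 1 := by rw [← MulChar.pow_apply_coe, hT, MulChar.one_apply_coe]
  have h2 : T g ≠ 1 := by
    intro h
    apply hT1
    rw [MulChar.eq_iff hg, h, MulChar.one_apply_coe]
  have h3 : χ g ^ ℓ = 1 := by rw [← MulChar.pow_apply_coe, hχ, MulChar.one_apply_coe]
  haveI : Fact ℓ.Prime := ⟨hℓ⟩
  have hprim : IsPrimitiveRoot (T g) ℓ := by
    rw [IsPrimitiveRoot.iff_orderOf]
    exact orderOf_eq_prime h1 h2
  have hprim' := hprim.inv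
  haveI : NeZero ℓ := ⟨hℓ.ne_zero⟩
  obtain ⟨c, _, hc⟩ := hprim'.eq_pow_of_pow_eq_one h3
  have h4 : χ = (T ^ c)⁻¹ := by
    rw [MulChar.eq_iff hg, ← hc, MulChar.inv_apply', ← Units.val_inv_eq_inv_val,
      MulChar.pow_apply_coe]
    have h5 : T ((g⁻¹ : Eˣ) : E) * T g = 1 := by
      rw [← map_mul, Units.inv_mul, map_one]
    rw [eq_inv_of_mul_eq_one_left h5]
  refine ⟨c, ?_, h4⟩
  rintro ⟨j, rfl⟩
  apply hχ1
  rw [h4, pow_mul, hT, one_pow, inv_one]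

/-- **The absolute values for all embeddings.** -/
theorem norm_emb {E : Type} [Field E] [Fintype E] [CharP E p] {f ℓ : ℕ} (hℓ : ℓ.Prime)
    (hf : Fintype.card E = p ^ f) (hdvd : ℓ ∣ Fintype.card E - 1) {χ : MulChar E ℂ}
    (hχ : χ ^ ℓ = 1) (hχ1 : χ ≠ 1) {ψ : AddChar E ℂ} (hψ : IsTrC p E ψ) (u : ℕ) (hu : ¬ ℓ ∣ u) :
    ∃ ν : ℂ ≃+* PadicAlgCl p, ∀ b, ¬ ℓ ∣ b →
      ‖ν (gaussSum (χ ^ b) ψ)‖ ^ ℓ = ‖((p : ℕ) : PadicAlgCl p)‖ ^ Sd ℓ p f (b * u) := by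
  classical
  obtain ⟨T, hT, hT1, hTb⟩ := norm_exact (p := p) E hℓ hf hdvd
  obtain ⟨ν₀⟩ := Pool.Agent.R847.Gap.exists_iso p
  set χ₀ : MulChar E (PadicAlgCl p) := χ.ringHomComp (ν₀ : ℂ →+* PadicAlgCl p) with hχ₀
  have hinj : Function.Injective (ν₀ : ℂ →+* PadicAlgCl p) := ν₀.injective
  obtain ⟨c, hc, hcT⟩ := exists_pow_eq (p := p) hℓ (T := T) (χ := χ₀) hT hT1
    (by rw [hχ₀, MulChar.ringHomComp_pow, hχ, MulChar.ringHomComp_one])
    (by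
      intro h
      apply hχ1
      apply MulChar.injective_ringHomComp hinj
      change χ.ringHomComp (ν₀ : ℂ →+* PadicAlgCl p) =
        (1 : MulChar E ℂ).ringHomComp (ν₀ : ℂ →+* PadicAlgCl p)
      rw [MulChar.ringHomComp_one]
      exact h)
  obtain ⟨v, hv, hcv⟩ : ∃ v : ℕ, ¬ ℓ ∣ v ∧ c * v ≡ u [MOD ℓ] := by
    have hcop : Nat.Coprime c ℓ := ((Nat.Prime.coprime_iff_not_dvd hℓ).2 hc).symm
    haveI : Fact ℓ.Prime := ⟨hℓ⟩
    have hc0 : (c : ZMod ℓ) ≠ 0 := by rwa [Ne, ZMod.natCast_eq_zero_iff]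
    have hu0 : (u : ZMod ℓ) ≠ 0 := by rwa [Ne, ZMod.natCast_eq_zero_iff]
    refine ⟨((c : ZMod ℓ)⁻¹ * u).val, ?_, ?_⟩
    · rw [← ZMod.natCast_eq_zero_iff, ZMod.natCast_zmod_val]
      exact mul_ne_zero (inv_ne_zero hc0) hu0
    · rw [← ZMod.natCast_eq_natCast_iff]
      push_cast
      rw [ZMod.natCast_zmod_val, mul_inv_cancel_left₀ hc0]
  obtain ⟨σ, hσ⟩ := H475.exists_ringEquiv_pow ℓ hℓ.pos _ (Complex.isPrimitiveRoot_exp ℓ hℓ.ne_zero) v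
    ((Nat.Prime.coprime_iff_not_dvd hℓ).2 hv).symm
  haveI : NeZero ℓ := ⟨hℓ.ne_zero⟩
  have hv0 : v ≠ 0 := by
    rintro rfl
    exact hv (dvd_zero _)
  have hσχ : ∀ x : E, σ (χ x) = χ x ^ v := by
    intro x
    by_cases hx : x = 0
    · rw [hx, MulChar.map_zero, map_zero, zero_pow hv0]
    · have h1 : χ x ^ ℓ = 1 := by
        have := MulChar.pow_apply' χ hℓ.ne_zero x
        rw [← this, hχ, MulChar.one_apply (isUnit_iff_ne_zero.2 hx)]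
      obtain ⟨i, _, hi⟩ := (Complex.isPrimitiveRoot_exp ℓ hℓ.ne_zero).eq_pow_of_pow_eq_one h1
      rw [← hi, map_pow, hσ, ← pow_mul, ← pow_mul, mul_comm i v]
  refine ⟨σ.trans ν₀, ?_⟩
  intro b hb
  have hb0 : b ≠ 0 := by
    rintro rfl
    exact hb (dvd_zero _)
  set ψ' := ((σ.trans ν₀ : ℂ ≃+* PadicAlgCl p) : ℂ →* PadicAlgCl p).compAddChar ψ with hψ'
  have hψ'' : IsTr p E ψ' := trC_map hψ _
  have h1 : (σ.trans ν₀) (gaussSum (χ ^ b) ψ) = gaussSum (T ^ (c * (b * v)))⁻¹ ψ' := by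
    unfold gaussSum
    rw [map_sum]
    refine sum_congr rfl fun x _ => ?_
    rw [map_mul]
    congr 1
    have h3 : (T ^ (c * (b * v)))⁻¹ = χ₀ ^ (b * v) := by rw [hcT, pow_mul, inv_pow]
    have h4 : χ₀ x = ν₀ (χ x) := rfl
    rw [h3, MulChar.pow_apply' χ₀ (Nat.mul_ne_zero hb0 hv0), h4, RingEquiv.trans_apply,
      MulChar.pow_apply' χ hb0, map_pow, hσχ, map_pow, map_pow, ← pow_mul, mul_comm v b]
  have h2 : ¬ ℓ ∣ c * (b * v) := by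
    intro h
    rcases hℓ.dvd_mul.1 h with h | h
    · exact hc h
    · rcases hℓ.dvd_mul.1 h with h | h
      · exact hb h
      · exact hv h
  rw [h1, hTb _ h2 _ hψ'']
  congr 1
  rw [← Sd_mod, ← Sd_mod ℓ p f (b * u)]
  congr 1
  have : c * (b * v) = b * (c * v) := by ring
  rw [this]
  exact (Nat.ModEq.mul_left b hcv)

end Pool.Agent.L5helper29.SE
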